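import Pool.Agent.H434R3.Arens

set_option autoImplicit false

/-!
# A nilpotent element of the bidual of a commutative Banach algebra

If `(d i)` is a bounded sequence of a commutative normed algebra `A` with `d j * d i → 0` for every
`j` and if some `f ∈ A'` satisfies `re f (d i) ≥ 1/2` for all `i`, then each weak-* cluster point
`Φ` of `(d i)` in `A''` is not zero and satisfies `Φ □ Ψ □ Φ = 0` for all `Ψ`.
-/

namespace Run7.h714.FA

open H434R3.Arens Filter Topology

/-- weak-* limits of bounded sequences of functionals along the hyperfilter -/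
theorem exists_limit {E : Type*} [NormedAddCommGroup E] [NormedSpace ℂ E] (φ : ℕ → E →L[ℂ] ℂ)
    (C : ℝ) (h : ∀ i, ‖φ i‖ ≤ C) :
    ∃ ψ : E →L[ℂ] ℂ, ∀ e, Tendsto (fun i => φ i e) (hyperfilter ℕ : Filter ℕ) (𝓝 (ψ e)) := by
  have hC : 0 ≤ C := (norm_nonneg _).trans (h 0)
  have hb : ∀ i e, ‖φ i e‖ ≤ C * ‖e‖ := fun i e =>
    ((φ i).le_opNorm e).trans (mul_le_mul_of_nonneg_right (h i) (norm_nonneg e))
  have key : ∀ e : E, ∃ z : ℂ, ‖z‖ ≤ C * ‖e‖ ∧
      Tendsto (fun i => φ i e) (hyperfilter ℕ : Filter ℕ) (𝓝 z) := by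
    intro e
    have hK : IsCompact (Metric.closedBall (0 : ℂ) (C * ‖e‖)) := isCompact_closedBall _ _
    have := hK.ultrafilter_le_nhds ((hyperfilter ℕ).map (fun i => φ i e)) (by
      rw [le_principal_iff, Ultrafilter.mem_coe, Ultrafilter.mem_map]
      apply univ_mem'
      intro i
      simpa using hb i e)
    obtain ⟨z, hz, hz'⟩ := this
    exact ⟨z, by simpa using hz, hz'⟩
  choose L hL1 hL2 using key
  refine ⟨LinearMap.mkContinuous { toFun := L, map_add' := ?_, map_smul' := ?_ } C hL1, hL2⟩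
  · intro x y
    refine tendsto_nhds_unique (hL2 (x + y)) ?_
    simpa using (hL2 x).add (hL2 y)
  · intro c x
    refine tendsto_nhds_unique (hL2 (c • x)) ?_
    simpa using (hL2 x).const_mul c

variable {A : Type*} [NonUnitalNormedRing A] [NormedSpace ℂ A] [IsScalarTower ℂ A A]
  [SMulCommClass ℂ A A]

theorem exists_nil (hcomm : ∀ a b : A, a * b = b * a) (d : ℕ → A) (C : ℝ) (hd : ∀ i, ‖d i‖ ≤ C)
    (h0 : ∀ j, Tendsto (fun i => ‖d j * d i‖) atTop (𝓝 0))
    (f : A →L[ℂ] ℂ) (hf : ∀ i, 1 / 2 ≤ (f (d i)).re) :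
    ∃ Φ : Bidual A, Φ ≠ 0 ∧ ∀ Ψ : Bidual A, Φ * Ψ * Φ = 0 := by
  have hC : 0 ≤ C := (norm_nonneg _).trans (hd 0)
  obtain ⟨ψ, hψ⟩ := exists_limit (E := A →L[ℂ] ℂ)
    (fun i => ContinuousLinearMap.apply ℂ ℂ (d i)) C (by
      intro i
      refine ContinuousLinearMap.opNorm_le_bound _ hC ?_
      intro g
      rw [ContinuousLinearMap.apply_apply]
      calc ‖g (d i)‖ ≤ ‖g‖ * ‖d i‖ := g.le_opNorm _
        _ ≤ ‖g‖ * C := mul_le_mul_of_nonneg_left (hd i) (norm_nonneg _)
        _ = C * ‖g‖ := mul_comm _ _)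
  simp only [ContinuousLinearMap.apply_apply] at hψ
  set Φ : Bidual A := ψ with hΦ
  have hev : ∀ g : A →L[ℂ] ℂ, Tendsto (fun i => g (d i)) (hyperfilter ℕ : Filter ℕ)
    (𝓝 (ev Φ g)) := hψ
  have hat : (hyperfilter ℕ : Filter ℕ) ≤ atTop := by
    rw [← Nat.cofinite_eq_atTop]
    exact hyperfilter_le_cofinite
  refine ⟨Φ, ?_, ?_⟩
  · intro h
    have h1 := hev f
    rw [h, ev_zero] at h1
    have h2 : Tendsto (fun i => (f (d i)).re) (hyperfilter ℕ : Filter ℕ) (𝓝 0) := by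
      have := (Complex.continuous_re.tendsto 0).comp h1
      simpa [Function.comp_def] using this
    have h3 : (1 / 2 : ℝ) ≤ 0 := ge_of_tendsto' h2 hf
    norm_num at h3
  · intro Ψ
    have hz : ∀ (h : A →L[ℂ] ℂ) (i : ℕ), psi Φ (hmod h (d i)) = 0 := by
      intro h i
      ext b
      rw [psi_apply', zero_apply]
      refine tendsto_nhds_unique (hev _) ?_
      have h1 : Tendsto (fun k => ‖h‖ * ‖b‖ * ‖d i * d k‖) (hyperfilter ℕ : Filter ℕ) (𝓝 0) := by
        have := ((h0 i).const_mul (‖h‖ * ‖b‖)).mono_left hat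
        simpa using this
      refine squeeze_zero_norm (fun k => ?_) h1
      rw [hmod_apply, hmod_apply]
      have e : d i * (b * d k) = b * (d i * d k) := by
        rw [← mul_assoc, hcomm (d i) b, mul_assoc]
      rw [e]
      calc ‖h (b * (d i * d k))‖ ≤ ‖h‖ * ‖b * (d i * d k)‖ := h.le_opNorm _
        _ ≤ ‖h‖ * (‖b‖ * ‖d i * d k‖) :=
          mul_le_mul_of_nonneg_left (norm_mul_le _ _) (norm_nonneg _)
        _ = ‖h‖ * ‖b‖ * ‖d i * d k‖ := by ring
    refine ext_ev fun h => ?_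
    rw [mul_assoc, mul_def, ev_box, ev_zero]
    refine tendsto_nhds_unique (hev _) ?_
    have e : ∀ i, psi (Ψ * Φ) h (d i) = 0 := by
      intro i
      rw [psi_apply', mul_def, ev_box, hz, ev_map_zero]
    simp only [e]
    exact tendsto_const_nhds

end Run7.h714.FA
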