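import Pool.Agent.Run7.h714.FA.Rec
import Pool.Agent.Run7.h714.FA.Nil

set_option autoImplicit false
set_option linter.unusedSectionVars false

/-!
# From the recursion to elements of the radical
-/

namespace Run7.h714.FA

open Filter Topology H434R3.Arens
open scoped InnerProductSpace ComplexConjugate

variable {G : Type*} [Group G] {H : Type*} [NormedAddCommGroup H] [InnerProductSpace ℂ H]
  [CompleteSpace H] {U : G → H →L[ℂ] H}
  {A : Type*} [NonUnitalNormedRing A] [NormedSpace ℂ A] [IsScalarTower ℂ A A]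
  [SMulCommClass ℂ A A]

/-- one functional on `A` for the whole sequence -/
theorem exists_functional (hU : URep U) (M : Coef U A) (t : ℕ → G) (c : ℕ → ℂ)
    (ζ : ℕ → H) (S : ℕ → H →L[ℂ] H) (hS : ∀ i, Good U (S i)) (hS1 : ∀ i, ‖S i‖ ≤ 1)
    (h : ∀ i, ∀ j < i, ‖⟪U (t j) (ζ j), S i (ζ j)⟫_ℂ - c j‖ ≤ 1 / 4)
    (u : ℕ → A) (hu : ∀ j, M.ι (u j) = fun s => ⟪U (t j) (ζ j), U s (ζ j)⟫_ℂ) :
    ∃ f : A →L[ℂ] ℂ, ∀ j, ‖f (u j) - c j‖ ≤ 1 / 4 := by
  choose f hf1 hf2 using fun i => M.exists_fun (hS i)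
  obtain ⟨g, hg⟩ := exists_limit f 1 fun i => (hf1 i).trans (hS1 i)
  have hat : (hyperfilter ℕ : Filter ℕ) ≤ atTop := by
    rw [← Nat.cofinite_eq_atTop]
    exact hyperfilter_le_cofinite
  refine ⟨g, fun j => ?_⟩
  have h1 : Tendsto (fun i => ‖f i (u j) - c j‖) (hyperfilter ℕ : Filter ℕ)
      (𝓝 ‖g (u j) - c j‖) := ((hg (u j)).sub_const (c j)).norm
  refine le_of_tendsto h1 ?_
  refine hat ?_
  filter_upwards [eventually_gt_atTop j] with i hi
  rw [hf2 i (u j) _ _ (hu j)]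
  exact h i j hi

/-- **Vectors with disjoint supports of the coefficient functions.** -/
theorem asm_disjoint (hU : URep U) (M : Coef U A) (t : ℕ → G) (Adm : ℕ → Set H)
    (hA : ∀ i, ∀ z ∈ Adm i, ‖z‖ = 1)
    (hstep : ∀ (i : ℕ) (F : Finset H) (ε : ℝ), 0 < ε → ∃ P Q : H →L[ℂ] H, Split U P Q ∧
      (∀ ξ ∈ F, ‖Q ξ‖ ≤ ε) ∧ ∃ ζ ∈ Adm i, ‖P ζ‖ ≤ ε)
    (hdis : ∀ i j, i ≠ j → ∀ z ∈ Adm i, ∀ z' ∈ Adm j, ∀ s,
      ⟪U (t i) z, U s z⟫_ℂ = 0 ∨ ⟪U (t j) z', U s z'⟫_ℂ = 0) :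
    ∃ Φ : Bidual A, Φ ≠ 0 ∧ ∀ Ψ : Bidual A, Φ * Ψ * Φ = 0 := by
  obtain ⟨ζ, S, h1, h2, h3, h4⟩ := recursion hU t (fun _ => 1) (by simp) Adm hA hstep
  choose u hu using fun j => M.coef (ζ j) (U (t j) (ζ j))
  obtain ⟨f, hf⟩ := exists_functional hU M t (fun _ => 1) ζ S h2 h3 h4 u hu
  refine exists_nil M.comm u 1 ?_ ?_ f ?_
  · intro i
    refine (M.le (u i) _ _ (hu i)).trans ?_
    rw [hU.norm, hA i _ (h1 i), one_mul]
  · intro j
    refine tendsto_const_nhds.congr' ?_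
    filter_upwards [eventually_gt_atTop j] with i hi
    have : u j * u i = 0 := by
      apply M.inj
      ext s
      rw [M.mul, map_zero, Pi.zero_apply, hu, hu]
      rcases hdis j i hi.ne _ (h1 j) _ (h1 i) s with h | h
      · simp only [h, zero_mul]
      · simp only [h, mul_zero]
    rw [this, norm_zero]
  · intro i
    have h5 := hf i
    have h6 : |(f (u i) - 1).re| ≤ 1 / 4 := (Complex.abs_re_le_norm _).trans h5
    rw [Complex.sub_re, Complex.one_re, abs_le] at h6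
    linarith [h6.1]

/-- **Vectors with converging coefficient functions of finite support.** -/
theorem asm_discrete (hU : URep U) (M : Coef U A) (hδ : ∀ s, ∃ a : A, ∀ s', M.ι a s' =
      (open Classical in if s' = s then 1 else 0))
    (z : ℕ → H) (hz : ∀ m, ‖z m‖ = 1)
    (hfin : ∀ m, {s | ⟪z m, U s (z m)⟫_ℂ ≠ 0}.Finite)
    (hlim : ∀ s, ∃ v : ℂ, Tendsto (fun m => ⟪z m, U s (z m)⟫_ℂ) atTop (𝓝 v))
    (hstep : ∀ (F : Finset H) (ε : ℝ), 0 < ε → ∃ P Q : H →L[ℂ] H, Split U P Q ∧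
      (∀ ξ ∈ F, ‖Q ξ‖ ≤ ε) ∧ Tendsto (fun m => ‖P (z m)‖) atTop (𝓝 0)) :
    ∃ Φ : Bidual A, Φ ≠ 0 ∧ ∀ Ψ : Bidual A, Φ * Ψ * Φ = 0 := by
  classical
  set Adm : ℕ → Set H := fun i => {ζ | ∃ m, i ≤ m ∧ ζ = z m} with hAdm
  obtain ⟨ζ, S, h1, h2, h3, h4⟩ := recursion hU (fun _ => 1) (fun i => (-1) ^ i) (by simp) Adm
    (by rintro i _ ⟨m, _, rfl⟩; exact hz m) (by
      intro i F ε hε
      obtain ⟨P, Q, g1, g2, g3⟩ := hstep F ε hε
      refine ⟨P, Q, g1, g2, ?_⟩
      have := (g3.eventually (ge_mem_nhds hε)).and (eventually_ge_atTop i)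
      obtain ⟨m, hm1, hm2⟩ := this.exists
      exact ⟨z m, ⟨m, hm2, rfl⟩, hm1⟩)
  choose k hk1 hk2 using h1
  have hk : Tendsto k atTop atTop := tendsto_atTop_mono hk1 tendsto_id
  choose u hu' using fun j => M.coef (ζ j) (ζ j)
  have hu : ∀ j, M.ι (u j) = fun s => ⟪U 1 (ζ j), U s (ζ j)⟫_ℂ := by
    intro j; rw [hu']; simp only [hU.one]
  obtain ⟨f, hf⟩ := exists_functional hU M (fun _ => 1) (fun i => (-1) ^ i) ζ S h2 h3 h4 u hu
  choose v hv using hlim
  choose δ hδ using hδ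
  have hζ1 : ∀ j, ‖ζ j‖ = 1 := fun j => by rw [hk2 j]; exact hz _
  have hu1 : ∀ j, ‖u j‖ ≤ 1 := by
    intro j
    refine (M.le (u j) _ _ (hu' j)).trans ?_
    rw [hζ1, one_mul]
  set d : ℕ → A := fun i => u (2 * i) - u (2 * i + 1) with hd
  have hd0 : ∀ s, Tendsto (fun i => M.ι (d i) s) atTop (𝓝 0) := by
    intro s
    have e1 : Tendsto (fun j => M.ι (u j) s) atTop (𝓝 (v s)) := by
      have := (hv s).comp hk
      refine this.congr fun j => ?_
      rw [hu' j, Function.comp_apply, hk2 j]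
    have e2 : Tendsto (fun i : ℕ => 2 * i) atTop atTop :=
      tendsto_atTop_mono (fun i => by simp only [id]; omega) tendsto_id
    have e3 : Tendsto (fun i : ℕ => 2 * i + 1) atTop atTop :=
      tendsto_atTop_mono (fun i => by simp only [id]; omega) tendsto_id
    have := (e1.comp e2).sub (e1.comp e3)
    rw [sub_self] at this
    refine this.congr fun i => ?_
    simp only [hd, Function.comp_apply, map_sub, Pi.sub_apply]
  have hsupp : ∀ i, {s | M.ι (d i) s ≠ 0}.Finite := by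
    intro i
    refine ((hfin (k (2 * i))).union (hfin (k (2 * i + 1)))).subset ?_
    intro s hs
    by_contra hcon
    simp only [Set.mem_union, Set.mem_ofPred_eq, not_or, not_not] at hcon
    apply hs
    simp only [hd, map_sub, Pi.sub_apply, hu', hk2 (2 * i), hk2 (2 * i + 1)]
    have c1 := hcon.1
    have c2 := hcon.2
    simp only [c1, c2, sub_zero]
  refine exists_nil M.comm d 2 ?_ ?_ f ?_
  · intro i
    calc ‖d i‖ ≤ ‖u (2 * i)‖ + ‖u (2 * i + 1)‖ := norm_sub_le _ _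
      _ ≤ 1 + 1 := add_le_add (hu1 _) (hu1 _)
      _ = 2 := by norm_num
  · intro j
    have e : ∀ i, d j * d i = ∑ s ∈ (hsupp j).toFinset, (M.ι (d j) s * M.ι (d i) s) • δ s := by
      intro i
      apply M.inj
      ext s'
      rw [M.mul, map_sum, Finset.sum_apply]
      simp only [map_smul, Pi.smul_apply, hδ, smul_eq_mul, mul_ite, mul_one, mul_zero]
      by_cases hs : M.ι (d j) s' = 0
      · rw [hs, zero_mul]
        symm
        apply Finset.sum_eq_zero
        intro s _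
        split_ifs with h
        · rw [← h, hs, zero_mul]
        · rfl
      · rw [Finset.sum_eq_single s']
        · simp
        · intro b _ hb
          rw [if_neg hb.symm]
        · intro h
          exact absurd ((hsupp j).mem_toFinset.2 hs) h
    have hb : Tendsto (fun i => ∑ s ∈ (hsupp j).toFinset,
        ‖M.ι (d j) s‖ * ‖M.ι (d i) s‖ * ‖δ s‖) atTop (𝓝 0) := by
      have : Tendsto (fun i => ∑ s ∈ (hsupp j).toFinset,
          ‖M.ι (d j) s‖ * ‖M.ι (d i) s‖ * ‖δ s‖) atTop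
          (𝓝 (∑ s ∈ (hsupp j).toFinset, ‖M.ι (d j) s‖ * ‖(0 : ℂ)‖ * ‖δ s‖)) := by
        apply tendsto_finsetSum
        intro s _
        exact ((hd0 s).norm.const_mul _).mul_const _
      simpa using this
    refine squeeze_zero (fun i => norm_nonneg _) (fun i => ?_) hb
    rw [e i]
    refine (norm_sum_le _ _).trans (Finset.sum_le_sum fun s _ => ?_)
    rw [norm_smul, norm_mul]
  · intro i
    have h5 := hf (2 * i)
    have h6 := hf (2 * i + 1)
    have e1 : ((-1 : ℂ)) ^ (2 * i) = 1 := by rw [pow_mul]; simp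
    have e2 : ((-1 : ℂ)) ^ (2 * i + 1) = -1 := by rw [pow_succ, e1]; ring
    rw [e1] at h5
    rw [e2] at h6
    have h7 := (Complex.abs_re_le_norm _).trans h5
    have h8 := (Complex.abs_re_le_norm _).trans h6
    rw [Complex.sub_re, Complex.one_re, abs_le] at h7
    rw [Complex.sub_re, Complex.neg_re, Complex.one_re, abs_le] at h8
    simp only [hd, map_sub, Complex.sub_re]
    linarith [h7.1, h8.2]

end Run7.h714.FA
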