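import Mathlib

set_option autoImplicit false

/-!
# The Fourier algebra of a locally compact group: definition
-/

namespace Run7.h714.FA

open MeasureTheory
open scoped ComplexConjugate

variable {G : Type*} [Group G] [MeasurableSpace G]

/-- The coefficient function `u(s) = ⟨λ(s)ξ, η⟩ = ∫ ξ(s⁻¹x) conj(η(x)) dμ(x)` of the left regular
representation `λ` of `G` on `L²(G)`, for `ξ, η ∈ L²(G) = L²(G, μ)`. -/
noncomputable def coeff (μ : Measure G) (ξ η : Lp ℂ 2 μ) (s : G) : ℂ :=
  ∫ x, ξ (s⁻¹ * x) * conj (η x) ∂μ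

/-- `A` is the Fourier algebra `A(G)`: its elements `a` are (given by) functions `fn a` on `G`,
namely all the coefficient functions of the left regular representation of `G` on `L²(G)`, with
pointwise addition, scalar multiplication and multiplication, and with the norm
`‖u‖ = inf ‖ξ‖ ‖η‖` over all representations `u(s) = ⟨λ(s)ξ, η⟩`. -/
structure FourierAlg (μ : Measure G) (A : Type*) [NonUnitalNormedRing A] [NormedSpace ℂ A] where
  /-- the function on `G` given by an element of `A` -/
  fn : A → G → ℂ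
  injective : ∀ a b : A, fn a = fn b → a = b
  range : ∀ u : G → ℂ, (∃ a : A, fn a = u) ↔ ∃ ξ η : Lp ℂ 2 μ, u = coeff μ ξ η
  add : ∀ (a b : A) (s : G), fn (a + b) s = fn a s + fn b s
  smul : ∀ (c : ℂ) (a : A) (s : G), fn (c • a) s = c * fn a s
  mul : ∀ (a b : A) (s : G), fn (a * b) s = fn a s * fn b s
  norm : ∀ a : A, ‖a‖ = sInf {r : ℝ | ∃ ξ η : Lp ℂ 2 μ, fn a = coeff μ ξ η ∧ r = ‖ξ‖ * ‖η‖}

end Run7.h714.FA
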