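import Mathlib

set_option autoImplicit false
set_option linter.unusedSectionVars false

/-!
# Perron–Frobenius: a convolution operator with full support has no maximal vector
-/

namespace Run7.h714.FA

open Filter Topology
open scoped InnerProductSpace ComplexConjugate

variable {G : Type*} [Group G] {H : Type*} [NormedAddCommGroup H] [InnerProductSpace ℂ H]

section coordinates

variable (b : HilbertBasis G ℂ H)

theorem hasSum_co (ξ : H) : HasSum (fun x => ‖⟪b x, ξ⟫_ℂ‖ ^ 2) (‖ξ‖ ^ 2) := by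
  have h := b.hasSum_inner_mul_inner ξ ξ
  have h2 := Complex.hasSum_re h
  rw [inner_self_eq_norm_sq_to_K] at h2
  have e : ((((‖ξ‖ : ℝ) : ℂ)) ^ 2).re = ‖ξ‖ ^ 2 := by norm_cast
  simp only [Complex.coe_algebraMap] at h2
  rw [e] at h2
  refine h2.congr_fun ?_
  intro x
  rw [← inner_conj_symm ξ (b x), ← Complex.normSq_eq_conj_mul_self, Complex.normSq_eq_norm_sq,
    Complex.ofReal_re]

theorem exists_co (f : G → ℂ) (hf : Summable fun x => ‖f x‖ ^ 2) :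
    ∃ ξ : H, ∀ x, ⟪b x, ξ⟫_ℂ = f x := by
  have hm : Memℓp f 2 := by
    apply memℓp_gen
    simpa using hf
  refine ⟨b.repr.symm ⟨f, hm⟩, fun x => ?_⟩
  rw [← b.repr_apply_apply, LinearIsometryEquiv.apply_symm_apply]

end coordinates

/-- equality in the triangle inequality -/
theorem phase {a : ℕ → ℂ} {s : ℂ} (h : HasSum a s) (hn : HasSum (fun n => ‖a n‖) ‖s‖) :
    ∃ ω : ℂ, ∀ n, a n = ‖a n‖ * ω := by
  by_cases hs : s = 0
  · refine ⟨0, fun n => ?_⟩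
    rw [hs, norm_zero] at hn
    have := (hasSum_zero_iff_of_nonneg (fun n => norm_nonneg (a n))).1 hn
    have h2 := congrFun this n
    simp only [Pi.zero_apply] at h2
    rw [h2]
    simpa using h2
  · have hs' : (‖s‖ : ℝ) ≠ 0 := norm_ne_zero_iff.2 hs
    have hsC : ((‖s‖ : ℝ) : ℂ) ≠ 0 := by exact_mod_cast hs'
    refine ⟨s / ‖s‖, ?_⟩
    -- Re (conj ω a n) ≤ ‖a n‖
    have h1 := Complex.hasSum_re (h.mul_left (conj (s / ‖s‖)))
    have e1 : (conj (s / ‖s‖) * s).re = ‖s‖ := by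
      have : conj (s / ‖s‖) * s = ((‖s‖ : ℝ) : ℂ) := by
        rw [map_div₀, Complex.conj_ofReal, div_mul_eq_mul_div, ← Complex.normSq_eq_conj_mul_self,
          Complex.normSq_eq_norm_sq, Complex.ofReal_pow, sq, mul_div_assoc, div_self hsC, mul_one]
      rw [this, Complex.ofReal_re]
    rw [e1] at h1
    have hω : ‖conj (s / ‖s‖)‖ = 1 := by
      rw [RCLike.norm_conj, norm_div, Complex.norm_real, norm_norm, div_self hs']
    have hle : ∀ n, (conj (s / ‖s‖) * a n).re ≤ ‖a n‖ := by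
      intro n
      calc (conj (s / ‖s‖) * a n).re ≤ ‖conj (s / ‖s‖) * a n‖ := Complex.re_le_norm _
        _ = ‖a n‖ := by rw [norm_mul, hω, one_mul]
    intro n
    have heq : (conj (s / ‖s‖) * a n).re = ‖a n‖ := by
      by_contra hne
      have := hasSum_lt hle (lt_of_le_of_ne (hle n) hne) h1 hn
      exact lt_irrefl _ this
    have heq2 : conj (s / ‖s‖) * a n = ((‖a n‖ : ℝ) : ℂ) := by
      apply Complex.ext
      · rw [heq, Complex.ofReal_re]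
      · rw [Complex.ofReal_im]
        have h3 : ‖conj (s / ‖s‖) * a n‖ ^ 2 = ‖a n‖ ^ 2 := by rw [norm_mul, hω, one_mul]
        rw [← Complex.normSq_eq_norm_sq, Complex.normSq_apply, heq] at h3
        nlinarith
    have hωω : conj (s / ‖s‖) * (s / ‖s‖) = 1 := by
      rw [← Complex.normSq_eq_conj_mul_self, Complex.normSq_eq_norm_sq]
      have : ‖s / (‖s‖ : ℂ)‖ = 1 := by rw [← RCLike.norm_conj, hω]
      rw [this]; simp
    rw [← heq2]
    calc a n = (conj (s / ‖s‖) * (s / ‖s‖)) * a n := by rw [hωω, one_mul]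
      _ = conj (s / ‖s‖) * a n * (s / ‖s‖) := by ring

/-- coordinates of the operator `K` -/
def IsConv (b : HilbertBasis G ℂ H) (h : ℕ → G) (K : H →L[ℂ] H) : Prop :=
  ∀ ξ x, HasSum (fun n => ((1 / 2 : ℝ) ^ (n + 1) : ℂ) * ⟪b ((h n)⁻¹ * x), ξ⟫_ℂ) ⟪b x, K ξ⟫_ℂ

/-- vectors at which the norm is attained -/
def Mx (K : H →L[ℂ] H) (ξ : H) : Prop := ‖K ξ‖ = ‖K‖ * ‖ξ‖

theorem Mx.smul {K : H →L[ℂ] H} {ξ : H} (h : Mx K ξ) (c : ℂ) : Mx K (c • ξ) := by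
  unfold Mx at *
  rw [map_smul, norm_smul, norm_smul, h]; ring

theorem Mx.sub {K : H →L[ℂ] H} {ξ η : H} (h : Mx K ξ) (h' : Mx K η) : Mx K (ξ - η) := by
  unfold Mx at *
  have e1 := parallelogram_law_with_norm ℂ ξ η
  have e2 := parallelogram_law_with_norm ℂ (K ξ) (K η)
  rw [← map_add, ← map_sub, h, h'] at e2
  have l1 := K.le_opNorm (ξ + η)
  have l2 := K.le_opNorm (ξ - η)
  have l3 : ‖K (ξ + η)‖ * ‖K (ξ + η)‖ ≤ (‖K‖ * ‖ξ + η‖) * (‖K‖ * ‖ξ + η‖) :=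
    mul_self_le_mul_self (norm_nonneg _) l1
  have l4 : (‖K‖ * ‖ξ - η‖) * (‖K‖ * ‖ξ - η‖) ≤ ‖K (ξ - η)‖ * ‖K (ξ - η)‖ := by
    have e3 : (‖K‖ * ‖ξ + η‖) * (‖K‖ * ‖ξ + η‖) + (‖K‖ * ‖ξ - η‖) * (‖K‖ * ‖ξ - η‖)
        = 2 * ((‖K‖ * ‖ξ‖) * (‖K‖ * ‖ξ‖) + (‖K‖ * ‖η‖) * (‖K‖ * ‖η‖)) := by
      linear_combination ‖K‖ ^ 2 * e1
    linarith
  have l5 : ‖K‖ * ‖ξ - η‖ ≤ ‖K (ξ - η)‖ :=
    abs_le_of_sq_le_sq' (a := ‖K‖ * ‖ξ - η‖) (b := ‖K (ξ - η)‖) (by nlinarith) (norm_nonneg _)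
      |>.2
  exact le_antisymm l2 l5

variable {b : HilbertBasis G ℂ H} {h : ℕ → G} {K : H →L[ℂ] H}

/-- right translation -/
theorem exists_rt (hK : IsConv b h K) {ξ : H} (hξ : Mx K ξ) (t : G) :
    ∃ η : H, Mx K η ∧ ∀ x, ⟪b x, η⟫_ℂ = ⟪b (x * t), ξ⟫_ℂ := by
  have hs : ∀ ζ : H, HasSum (fun x => ‖⟪b (x * t), ζ⟫_ℂ‖ ^ 2) (‖ζ‖ ^ 2) := fun ζ =>
    (Equiv.mulRight t).hasSum_iff.2 (hasSum_co b ζ)
  obtain ⟨η, hη⟩ := exists_co b (fun x => ⟪b (x * t), ξ⟫_ℂ) (hs ξ).summable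
  refine ⟨η, ?_, hη⟩
  have h1 : ‖η‖ ^ 2 = ‖ξ‖ ^ 2 := by
    have := hasSum_co b η
    simp only [hη] at this
    exact this.unique (hs ξ)
  have h2 : ∀ x, ⟪b x, K η⟫_ℂ = ⟪b (x * t), K ξ⟫_ℂ := by
    intro x
    have e1 := hK η x
    have e2 := hK ξ (x * t)
    simp only [hη, mul_assoc] at e1
    exact e1.unique e2
  have h3 : ‖K η‖ ^ 2 = ‖K ξ‖ ^ 2 := by
    have := hasSum_co b (K η)
    simp only [h2] at this
    exact this.unique (hs (K ξ))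
  have h4 : ‖η‖ = ‖ξ‖ := (sq_eq_sq₀ (norm_nonneg _) (norm_nonneg _)).1 h1
  have h5 : ‖K η‖ = ‖K ξ‖ := (sq_eq_sq₀ (norm_nonneg _) (norm_nonneg _)).1 h3
  unfold Mx at *
  rw [h4, h5, hξ]

/-- the phase of a maximal vector is constant along the orbits -/
theorem Mx.phase (hK : IsConv b h K) {ξ : H} (hξ : Mx K ξ) (x : G) :
    ∃ ω : ℂ, ∀ n, ⟪b ((h n)⁻¹ * x), ξ⟫_ℂ = ‖⟪b ((h n)⁻¹ * x), ξ⟫_ℂ‖ * ω := by
  obtain ⟨η, hη⟩ := exists_co b (fun x => ((‖⟪b x, ξ⟫_ℂ‖ : ℝ) : ℂ)) (by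
    simpa using (hasSum_co b ξ).summable)
  have h1 : ‖η‖ ^ 2 = ‖ξ‖ ^ 2 := by
    have := hasSum_co b η
    simp only [hη, Complex.norm_real, norm_norm] at this
    exact this.unique (hasSum_co b ξ)
  have h4 : ‖η‖ = ‖ξ‖ := (sq_eq_sq₀ (norm_nonneg _) (norm_nonneg _)).1 h1
  -- coordinates of `K η`
  have h2 : ∀ y, HasSum (fun n => ‖((1 / 2 : ℝ) ^ (n + 1) : ℂ) * ⟪b ((h n)⁻¹ * y), ξ⟫_ℂ‖)
      ‖⟪b y, K η⟫_ℂ‖ := by
    intro y
    have e1 := hK η y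
    simp only [hη] at e1
    have e2 : HasSum (fun n => (((‖((1 / 2 : ℝ) ^ (n + 1) : ℂ) * ⟪b ((h n)⁻¹ * y), ξ⟫_ℂ‖ : ℝ)) : ℂ))
        ⟪b y, K η⟫_ℂ := by
      refine e1.congr_fun fun n => ?_
      rw [norm_mul]
      push_cast
      congr 1
      rw [norm_pow]
      norm_num
    have e3 := Complex.hasSum_re e2
    simp only [Complex.ofReal_re] at e3
    have e4 : ⟪b y, K η⟫_ℂ = (((⟪b y, K η⟫_ℂ).re : ℝ) : ℂ) := by
      have := Complex.hasSum_ofReal.2 e3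
      exact e2.unique this
    have e5 : 0 ≤ (⟪b y, K η⟫_ℂ).re := e3.nonneg fun n => norm_nonneg _
    have e6 : ‖⟪b y, K η⟫_ℂ‖ = (⟪b y, K η⟫_ℂ).re := by
      rw [e4, Complex.norm_real, Complex.ofReal_re, Real.norm_of_nonneg e5]
    rw [e6]
    exact e3
  have h3 : ∀ y, ‖⟪b y, K ξ⟫_ℂ‖ ≤ ‖⟪b y, K η⟫_ℂ‖ := by
    intro y
    exact (hK ξ y).norm_le_of_bounded (h2 y) fun n => le_rfl
  have h5 : ‖K η‖ ≤ ‖K ξ‖ := by
    unfold Mx at hξ
    rw [hξ, ← h4]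
    exact K.le_opNorm η
  have h6 : ∀ y, ‖⟪b y, K ξ⟫_ℂ‖ = ‖⟪b y, K η⟫_ℂ‖ := by
    intro y
    by_contra hne
    have hlt := lt_of_le_of_ne (h3 y) hne
    have := hasSum_lt (fun y => pow_le_pow_left₀ (norm_nonneg _) (h3 y) 2)
      (pow_lt_pow_left₀ hlt (norm_nonneg _) two_ne_zero) (hasSum_co b (K ξ)) (hasSum_co b (K η))
    have h7 := pow_le_pow_left₀ (norm_nonneg _) h5 2
    linarith
  obtain ⟨ω, hω⟩ := FA.phase (hK ξ x) (by rw [h6 x]; exact h2 x)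
  refine ⟨ω, fun n => ?_⟩
  have h8 := hω n
  rw [norm_mul] at h8
  have h9 : ‖((1 / 2 : ℝ) ^ (n + 1) : ℂ)‖ = (1 / 2) ^ (n + 1) := by
    rw [norm_pow]; norm_num
  rw [h9] at h8
  have h10 : ((1 / 2 : ℝ) ^ (n + 1) : ℂ) ≠ 0 := pow_ne_zero _ (by norm_num)
  apply mul_left_cancel₀ h10
  rw [h8]
  push_cast
  ring

theorem alg {a b a' b' : ℂ} (h : ∀ c : ℂ, ((a - c * a') * conj (b - c * b')).im = 0) :
    a' * conj b = conj a * b' := by
  have h0 := h 0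
  have h1 := h 1
  have h2 := h (-1)
  have h3 := h Complex.I
  simp only [Complex.mul_im, Complex.mul_re, Complex.sub_re, Complex.sub_im, Complex.conj_re,
    Complex.conj_im, Complex.one_re, Complex.one_im, Complex.neg_re, Complex.neg_im,
    Complex.I_re, Complex.I_im, Complex.zero_re, Complex.zero_im] at h0 h1 h2 h3
  apply Complex.ext
  · simp only [Complex.mul_re, Complex.conj_re, Complex.conj_im]
    nlinarith
  · simp only [Complex.mul_im, Complex.conj_re, Complex.conj_im]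
    nlinarith

/-- **No maximal vectors.** -/
theorem pf (hK : IsConv b h K) (Γ : Subgroup G) (hh : ∀ g ∈ Γ, ∃ n, h n = g) [Infinite Γ]
    {ξ : H} (hξ : Mx K ξ) : ξ = 0 := by
  by_contra hne
  obtain ⟨x₀, hx₀⟩ : ∃ x₀, ⟪b x₀, ξ⟫_ℂ ≠ 0 := by
    by_contra hcon
    push Not at hcon
    have := hasSum_co b ξ
    simp only [hcon, norm_zero] at this
    have h2 : HasSum (fun _ : G => (0 : ℝ) ^ 2) 0 := by simp
    have h3 := this.unique h2
    exact hne (norm_eq_zero.1 (by simpa using h3))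
  have hph : ∀ ζ : H, Mx K ζ → ∃ ω : ℂ, ∀ g ∈ Γ, ⟪b (g * x₀), ζ⟫_ℂ = ‖⟪b (g * x₀), ζ⟫_ℂ‖ * ω := by
    intro ζ hζ
    obtain ⟨ω, hω⟩ := hζ.phase hK x₀
    refine ⟨ω, fun g hg => ?_⟩
    obtain ⟨n, hn⟩ := hh g⁻¹ (Γ.inv_mem hg)
    have := hω n
    rwa [hn, inv_inv] at this
  have key : ∀ g₀ ∈ Γ, ∀ g ∈ Γ, ⟪b (g * g₀ * x₀), ξ⟫_ℂ * conj ⟪b x₀, ξ⟫_ℂ
      = conj ⟪b (g * x₀), ξ⟫_ℂ * ⟪b (g₀ * x₀), ξ⟫_ℂ := by
    intro g₀ hg₀ g hg
    obtain ⟨η, hη, hηc⟩ := exists_rt hK hξ (x₀⁻¹ * g₀ * x₀)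
    apply alg
    intro c
    obtain ⟨ω, hω⟩ := hph _ (hξ.sub (hη.smul c))
    have e1 := hω g hg
    have e2 := hω 1 Γ.one_mem
    have k1 : g * x₀ * (x₀⁻¹ * g₀ * x₀) = g * g₀ * x₀ := by group
    have k2 : x₀ * (x₀⁻¹ * g₀ * x₀) = g₀ * x₀ := by group
    rw [inner_sub_right, inner_smul_right, hηc, k1] at e1
    rw [one_mul, inner_sub_right, inner_smul_right, hηc, k2] at e2
    rw [e1, e2, map_mul (starRingEnd ℂ), Complex.conj_ofReal]
    have : ∀ (r s : ℝ) (w : ℂ), (((r : ℂ) * w) * ((s : ℂ) * conj w)).im = 0 := by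
      intro r s w
      have : ((r : ℂ) * w) * ((s : ℂ) * conj w) = ((r * s * Complex.normSq w : ℝ) : ℂ) := by
        push_cast
        rw [Complex.normSq_eq_conj_mul_self]
        ring
      rw [this, Complex.ofReal_im]
    exact this _ _ _
  set f : Γ → ℝ := fun g => ‖⟪b (g * x₀), ξ⟫_ℂ‖ ^ 2 with hf
  have hsum : Summable f := by
    have hinj : Function.Injective (fun g : Γ => (g : G) * x₀) := by
      intro g g' hgg
      exact Subtype.ext (mul_right_cancel hgg)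
    exact (hasSum_co b ξ).summable.comp_injective hinj
  have hf1 : 0 < f 1 := by
    simp only [hf, Subgroup.coe_one, one_mul]
    positivity
  have hfm : ∀ g₀ g : Γ, f (g * g₀) * f 1 = f g * f g₀ := by
    intro g₀ g
    have := congrArg (fun z : ℂ => ‖z‖ ^ 2) (key g₀ g₀.2 g g.2)
    simp only [norm_mul, RCLike.norm_conj, mul_pow] at this
    simpa [hf] using this
  have hconst : ∀ g₀ : Γ, f g₀ = f 1 := by
    intro g₀
    have e1 : HasSum (fun g => f (g * g₀)) (∑' g, f g) :=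
      (Equiv.mulRight g₀).hasSum_iff.2 hsum.hasSum
    have e2 := e1.mul_right (f 1)
    have e3 := hsum.hasSum.mul_right (f g₀)
    simp only [hfm] at e2
    have e4 := e2.unique e3
    have e5 : 0 < ∑' g, f g := by
      refine hsum.tsum_pos (fun g => by positivity) 1 hf1
    exact (mul_left_cancel₀ e5.ne' e4).symm
  have : Summable fun _ : Γ => f 1 := by
    refine hsum.congr fun g => ?_
    exact (hconst g)
  rw [summable_const_iff] at this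
  exact hf1.ne' this

end Run7.h714.FA
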