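import Pool.Agent.Run7.h714.FA.Asm
import Pool.Agent.Run7.h714.FA.PF

set_option autoImplicit false
set_option linter.unusedSectionVars false

/-!
# Infinite discrete groups
-/

namespace Run7.h714.FA

open Filter Topology H434R3.Arens
open scoped InnerProductSpace ComplexConjugate

theorem exists_countable_subgroup (G : Type*) [Group G] [Infinite G] :
    ∃ (Γ : Subgroup G) (h : ℕ → G), Infinite Γ ∧ ∀ g ∈ Γ, ∃ n, h n = g := by
  have hc : Countable (FreeGroup ℕ) := by
    have : Function.Surjective (FreeGroup.mk : List (ℕ × Bool) → FreeGroup ℕ) := by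
      intro x
      exact ⟨x.toWord, FreeGroup.mk_toWord⟩
    exact this.countable
  set f := Infinite.natEmbedding G
  obtain ⟨e, he⟩ := exists_surjective_nat (FreeGroup ℕ)
  refine ⟨(FreeGroup.lift (f : ℕ → G)).range, fun n => FreeGroup.lift (f : ℕ → G) (e n), ?_, ?_⟩
  · refine Infinite.of_injective (fun n : ℕ => (⟨f n, FreeGroup.of n, by simp⟩ :
      (FreeGroup.lift (f : ℕ → G)).range)) ?_
    intro n m hnm
    exact f.injective (Subtype.ext_iff.1 hnm)
  · rintro g ⟨w, rfl⟩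
    obtain ⟨n, rfl⟩ := he w
    exact ⟨n, rfl⟩

theorem exists_subseq {G : Type*} (u : ℕ → G → ℂ) (hu : ∀ m s, ‖u m s‖ ≤ 1)
    (hfin : ∀ m, {s | u m s ≠ 0}.Finite) :
    ∃ φ : ℕ → ℕ, StrictMono φ ∧ ∀ s, ∃ v, Tendsto (fun m => u (φ m) s) atTop (𝓝 v) := by
  set C : Set G := ⋃ m, {s | u m s ≠ 0} with hC
  have hCc : C.Countable := Set.countable_iUnion fun m => (hfin m).countable
  have := hCc.to_subtype
  have hcomp : IsCompact (Set.pi Set.univ (fun _ : C => Metric.closedBall (0 : ℂ) 1)) :=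
    isCompact_univ_pi fun _ => isCompact_closedBall _ _
  obtain ⟨a, _, φ, hφ, ha⟩ := hcomp.tendsto_subseq (x := fun m (s : C) => u m s) (by
    intro m s _
    simpa using hu m s)
  refine ⟨φ, hφ, fun s => ?_⟩
  by_cases hs : s ∈ C
  · refine ⟨a ⟨s, hs⟩, ?_⟩
    exact (tendsto_pi_nhds.1 ha) ⟨s, hs⟩
  · refine ⟨0, ?_⟩
    have : ∀ m, u m s = 0 := by
      intro m
      by_contra hne
      exact hs (Set.mem_iUnion.2 ⟨m, hne⟩)
    simp only [this]
    exact tendsto_const_nhds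

variable {G : Type*} [Group G] {H : Type*} [NormedAddCommGroup H] [InnerProductSpace ℂ H]
  [CompleteSpace H] {U : G → H →L[ℂ] H}

theorem co_U (hU : URep U) {b : HilbertBasis G ℂ H} (hb : ∀ s x, U s (b x) = b (s * x))
    (s x : G) (ξ : H) : ⟪b x, U s ξ⟫_ℂ = ⟪b (s⁻¹ * x), ξ⟫_ℂ := by
  rw [hU.inner_right, hb]

/-- the convolution operator -/
theorem exists_conv (hU : URep U) {b : HilbertBasis G ℂ H} (hb : ∀ s x, U s (b x) = b (s * x))
    (h : ℕ → G) : ∃ K : H →L[ℂ] H, Good U K ∧ IsConv b h K := by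
  have hs : Summable (fun n => ((1 / 2 : ℝ) ^ (n + 1) : ℂ) • U (h n)) := by
    refine Summable.of_norm_bounded (g := fun n => (1 / 2 : ℝ) ^ (n + 1)) ?_ ?_
    · exact (summable_nat_add_iff 1).2 (summable_geometric_of_lt_one (by norm_num) (by norm_num))
    · intro n
      rw [norm_smul]
      have h1 : ‖((1 / 2 : ℝ) ^ (n + 1) : ℂ)‖ = (1 / 2) ^ (n + 1) := by
        rw [norm_pow]; norm_num
      have h2 : ‖U (h n)‖ ≤ 1 := by
        refine ContinuousLinearMap.opNorm_le_bound _ zero_le_one fun x => ?_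
        rw [one_mul, hU.norm]
      rw [h1]
      have h3 : (0 : ℝ) ≤ (1 / 2) ^ (n + 1) := by positivity
      calc (1 / 2 : ℝ) ^ (n + 1) * ‖U (h n)‖ ≤ (1 / 2 : ℝ) ^ (n + 1) * 1 :=
            mul_le_mul_of_nonneg_left h2 h3
        _ = _ := mul_one _
  refine ⟨∑' n, ((1 / 2 : ℝ) ^ (n + 1) : ℂ) • U (h n), ?_, ?_⟩
  · exact good_of_tendsto (fun n => good_sum _ _ fun i _ => (good_U (h i)).smul _)
      hs.hasSum.tendsto_sum_nat
  · intro ξ x
    have := hs.hasSum.mapL ((innerSL ℂ (b x)).comp (ContinuousLinearMap.apply ℂ H ξ))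
    simp only [ContinuousLinearMap.comp_apply, ContinuousLinearMap.apply_apply, smul_apply,
      innerSL_apply_apply, inner_smul_right, co_U hU hb] at this
    exact this

/-- finitely supported vectors almost attaining the norm -/
theorem exists_finsupp (b : HilbertBasis G ℂ H) (K : H →L[ℂ] H) {r : ℝ} (hr0 : 0 ≤ r)
    (hr : r < ‖K‖) : ∃ z : H, ‖z‖ = 1 ∧ r < ‖K z‖ ∧ {x | ⟪b x, z⟫_ℂ ≠ 0}.Finite := by
  obtain ⟨x, hx⟩ : ∃ x, r * ‖x‖ < ‖K x‖ := by
    by_contra hcon
    push Not at hcon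
    exact absurd (K.opNorm_le_bound hr0 hcon) (not_le.2 hr)
  have hd : Dense ((Submodule.span ℂ (Set.range b) : Submodule ℂ H) : Set H) := by
    rw [Submodule.dense_iff_topologicalClosure_eq_top]
    exact b.dense_span
  have ho : IsOpen {x | r * ‖x‖ < ‖K x‖} :=
    isOpen_lt (continuous_const.mul continuous_norm) K.continuous.norm
  obtain ⟨y, hy1, hy2⟩ := hd.inter_open_nonempty _ ho ⟨x, hx⟩
  have hy1' : r * ‖y‖ < ‖K y‖ := hy1
  have hy0 : y ≠ 0 := by
    rintro rfl
    simp at hy1'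
  have hyn : 0 < ‖y‖ := norm_pos_iff.2 hy0
  have hfin : ∀ y ∈ Submodule.span ℂ (Set.range b), {x | ⟪b x, y⟫_ℂ ≠ 0}.Finite := by
    intro y hy
    induction hy using Submodule.span_induction with
    | mem y hy =>
      obtain ⟨x, rfl⟩ := hy
      refine (Set.finite_singleton x).subset ?_
      intro x' hx'
      by_contra hne
      exact hx' (b.orthonormal.2 hne)
    | zero => simp
    | add y y' _ _ h1 h2 =>
      refine (h1.union h2).subset ?_
      intro x hx
      by_contra hne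
      simp only [Set.mem_union, Set.mem_ofPred_eq, not_or, not_not] at hne
      apply hx
      rw [inner_add_right, hne.1, hne.2, add_zero]
    | smul c y _ h1 =>
      refine h1.subset ?_
      intro x hx h0
      apply hx
      rw [inner_smul_right, h0, mul_zero]
  refine ⟨((‖y‖⁻¹ : ℝ) : ℂ) • y, ?_, ?_, ?_⟩
  · rw [norm_smul, Complex.norm_real, norm_inv, norm_norm, inv_mul_cancel₀ hyn.ne']
  · rw [map_smul, norm_smul, Complex.norm_real, norm_inv, norm_norm, lt_inv_mul_iff₀ hyn, mul_comm]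
    exact hy1'
  · exact hfin _ (Submodule.smul_mem _ _ hy2)

theorem fin_coef (hU : URep U) {b : HilbertBasis G ℂ H} (hb : ∀ s x, U s (b x) = b (s * x))
    {z : H} (hz : {x | ⟪b x, z⟫_ℂ ≠ 0}.Finite) : {s | ⟪z, U s z⟫_ℂ ≠ 0}.Finite := by
  refine (Set.Finite.image2 (fun x y : G => x * y⁻¹) hz hz).subset ?_
  intro s hs
  have h1 := b.hasSum_inner_mul_inner z (U s z)
  obtain ⟨x, hx⟩ : ∃ x, ⟪z, b x⟫_ℂ * ⟪b x, U s z⟫_ℂ ≠ 0 := by
    by_contra hcon
    push Not at hcon
    simp only [hcon] at h1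
    exact hs (h1.unique hasSum_zero)
  rw [mul_ne_zero_iff, co_U hU hb] at hx
  refine ⟨x, ?_, s⁻¹ * x, hx.2, by group⟩
  intro h0
  apply hx.1
  rw [← inner_conj_symm, h0, map_zero]

/-- the averages of the powers of an operator -/
noncomputable def avg (T : H →L[ℂ] H) (n : ℕ) : H →L[ℂ] H :=
  ((n : ℂ)⁻¹) • ∑ k ∈ Finset.range n, T ^ k

theorem avg_apply (T : H →L[ℂ] H) (n : ℕ) (x : H) :
    avg T n x = birkhoffAverage ℂ T _root_.id n x := by
  rw [birkhoffAverage, birkhoffSum, avg, smul_apply, sum_apply]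
  congr 1
  refine Finset.sum_congr rfl fun k _ => ?_
  have : ∀ (k : ℕ) (y : H), (T ^ k) y = (T^[k]) y := by
    intro k
    induction k with
    | zero => intro y; simp
    | succ k ih => intro y; rw [pow_succ, mul_apply_eq_comp, ih, Function.iterate_succ_apply]
  exact this k x

theorem avg_norm {T : H →L[ℂ] H} (hT : ‖T‖ ≤ 1) (n : ℕ) : ‖avg T n‖ ≤ 1 := by
  rw [avg, norm_smul, norm_inv, Complex.norm_natCast]
  rcases Nat.eq_zero_or_pos n with rfl | hn
  · simp
  · have hn' : (0 : ℝ) < n := by exact_mod_cast hn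
    rw [inv_mul_le_iff₀ hn', mul_one]
    calc ‖∑ k ∈ Finset.range n, T ^ k‖ ≤ ∑ k ∈ Finset.range n, ‖T ^ k‖ := norm_sum_le _ _
      _ ≤ ∑ k ∈ Finset.range n, 1 := by
        refine Finset.sum_le_sum fun k _ => ?_
        rcases Nat.eq_zero_or_pos k with rfl | hk
        · rw [pow_zero]
          exact ContinuousLinearMap.norm_id_le
        · exact (norm_pow_le' T hk).trans (pow_le_one₀ (norm_nonneg _) hT)
      _ = n := by simp

theorem avg_good (hU : URep U) {T : H →L[ℂ] H} (hT : Good U T) (n : ℕ) : Good U (avg T n) :=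
  Good.smul _ (good_sum _ _ fun k _ => hT.pow hU k)

theorem avg_tendsto {T : H →L[ℂ] H} (hT : ‖T‖ ≤ 1) (h0 : ∀ x, T x = x → x = 0) (x : H) :
    Tendsto (fun n => avg T n x) atTop (𝓝 0) := by
  have h1 := T.tendsto_birkhoffAverage_orthogonalProjection hT x
  have h2 : ((T.eqLocus (1 : H →L[ℂ] H)).orthogonalProjectionOnto x : H) = 0 := by
    apply h0
    have h3 := ((T.eqLocus (1 : H →L[ℂ] H)).orthogonalProjectionOnto x).2
    exact LinearMap.mem_eqLocus.1 h3
  rw [h2] at h1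
  exact h1.congr fun n => (avg_apply T n x).symm

/-- almost fixed vectors are almost fixed by the averages -/
theorem avg_fix {T : H →L[ℂ] H} (z : ℕ → H)
    (hz : Tendsto (fun m => T (z m) - z m) atTop (𝓝 0)) {n : ℕ} (hn : n ≠ 0) :
    Tendsto (fun m => avg T n (z m) - z m) atTop (𝓝 0) := by
  have h1 : ∀ k : ℕ, Tendsto (fun m => (T ^ k) (z m) - z m) atTop (𝓝 0) := by
    intro k
    induction k with
    | zero => simp
    | succ k ih =>
      have h2 : Tendsto (fun m => T ((T ^ k) (z m) - z m)) atTop (𝓝 (T 0)) :=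
        (T.continuous.tendsto 0).comp ih
      rw [map_zero] at h2
      have h3 := h2.add hz
      rw [add_zero] at h3
      refine h3.congr fun m => ?_
      rw [pow_succ', mul_apply_eq_comp, map_sub]
      abel
  have hn' : (n : ℂ) ≠ 0 := by exact_mod_cast hn
  have h2 : Tendsto (fun m => ((n : ℂ)⁻¹) • ∑ k ∈ Finset.range n, ((T ^ k) (z m) - z m)) atTop
      (𝓝 (((n : ℂ)⁻¹) • ∑ k ∈ Finset.range n, (0 : H))) :=
    (tendsto_finsetSum _ fun k _ => h1 k).const_smul _
  rw [Finset.sum_const_zero, smul_zero] at h2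
  refine h2.congr fun m => ?_
  rw [Finset.sum_sub_distrib, Finset.sum_const, Finset.card_range, smul_sub,
    ← Nat.cast_smul_eq_nsmul ℂ, smul_smul, inv_mul_cancel₀ hn', one_smul, avg, smul_apply,
    sum_apply]

variable {A : Type*} [NonUnitalNormedRing A] [NormedSpace ℂ A] [IsScalarTower ℂ A A]
  [SMulCommClass ℂ A A]

open ContinuousLinearMap in
/-- **The discrete case.** -/
theorem discrete [Infinite G] (hU : URep U) {b : HilbertBasis G ℂ H}
    (hb : ∀ s x, U s (b x) = b (s * x)) (M : Coef U A) :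
    ∃ Φ : Bidual A, Φ ≠ 0 ∧ ∀ Ψ : Bidual A, Φ * Ψ * Φ = 0 := by
  classical
  obtain ⟨Γ, h, hΓ, hh⟩ := exists_countable_subgroup G
  obtain ⟨K, hKg, hKc⟩ := exists_conv hU hb h
  have hpf : ∀ ξ, Mx K ξ → ξ = 0 := fun ξ hξ => pf hKc Γ hh hξ
  have hK0 : K ≠ 0 := by
    rintro rfl
    have h1 : Mx (0 : H →L[ℂ] H) (b 1) := by simp [Mx]
    have h2 := hpf _ h1
    have h3 := b.orthonormal.1 1
    rw [h2, norm_zero] at h3
    exact zero_ne_one h3
  have hN : 0 < ‖K‖ := norm_pos_iff.2 hK0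
  -- normalise
  set K' : H →L[ℂ] H := ((‖K‖⁻¹ : ℝ) : ℂ) • K with hK'
  have hK'g : Good U K' := hKg.smul _
  have hK'n : ‖K'‖ = 1 := by
    rw [hK', norm_smul, Complex.norm_real, norm_inv, norm_norm, inv_mul_cancel₀ hN.ne']
  have hK'a : ∀ x, ‖K' x‖ = ‖K‖⁻¹ * ‖K x‖ := by
    intro x
    rw [hK', smul_apply, norm_smul, Complex.norm_real, norm_inv, norm_norm]
  have hsp := split_of hU hK'g hK'n.le
  set T : H →L[ℂ] H := adjoint K' * K' with hT
  have hT1 : ‖T‖ ≤ 1 := by
    refine T.opNorm_le_bound zero_le_one fun x => ?_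
    rw [one_mul]
    exact hsp.P_le x
  have hTi : ∀ x, RCLike.re ⟪x, T x⟫_ℂ = ‖K' x‖ ^ 2 := by
    intro x
    rw [hT, mul_apply_eq_comp, adjoint_inner_right, inner_self_eq_norm_sq]
  have hT0 : ∀ x, T x = x → x = 0 := by
    intro x hx
    apply hpf
    have h1 := hTi x
    rw [hx, inner_self_eq_norm_sq] at h1
    have h2 : ‖x‖ = ‖K' x‖ := (sq_eq_sq₀ (norm_nonneg _) (norm_nonneg _)).1 h1
    unfold Mx
    rw [h2, hK'a, ← mul_assoc, mul_inv_cancel₀ hN.ne', one_mul]
  -- the vectors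
  have hex : ∀ m : ℕ, ∃ z : H, ‖z‖ = 1 ∧ (1 - 1 / ((m : ℝ) + 1)) < ‖K' z‖ ∧
      {x | ⟪b x, z⟫_ℂ ≠ 0}.Finite := by
    intro m
    refine exists_finsupp b K' ?_ ?_
    · have : 1 / ((m : ℝ) + 1) ≤ 1 := by
        rw [div_le_one (by positivity)]
        have : (0 : ℝ) ≤ m := Nat.cast_nonneg m
        linarith
      linarith
    · rw [hK'n]
      have : 0 < 1 / ((m : ℝ) + 1) := by positivity
      linarith
  choose z hz1 hz2 hz3 using hex
  obtain ⟨φ, hφ, hlim⟩ := exists_subseq (fun m s => ⟪z m, U s (z m)⟫_ℂ) (fun m s => by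
    refine (norm_inner_le_norm _ _).trans ?_
    rw [hU.norm, hz1, one_mul]) (fun m => fin_coef hU hb (hz3 m))
  have hK1 : Tendsto (fun m => ‖K' (z (φ m))‖) atTop (𝓝 1) := by
    have h1 : Tendsto (fun m : ℕ => ‖K' (z m)‖) atTop (𝓝 1) := by
      have h0 : Tendsto (fun m : ℕ => 1 - 1 / ((m : ℝ) + 1)) atTop (𝓝 (1 - 0)) :=
        tendsto_const_nhds.sub tendsto_one_div_add_atTop_nhds_zero_nat
      rw [sub_zero] at h0
      refine tendsto_of_tendsto_of_tendsto_of_le_of_le h0 tendsto_const_nhds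
        (fun m => (hz2 m).le) (fun m => ?_)
      refine (K'.le_opNorm _).trans ?_
      rw [hK'n, hz1, one_mul]
    exact h1.comp hφ.tendsto_atTop
  have hTz : Tendsto (fun m => T (z (φ m)) - z (φ m)) atTop (𝓝 0) := by
    rw [tendsto_zero_iff_norm_tendsto_zero]
    have h1 : ∀ m, ‖T (z (φ m)) - z (φ m)‖ ≤ Real.sqrt (2 * (1 - ‖K' (z (φ m))‖ ^ 2)) := by
      intro m
      apply Real.le_sqrt_of_sq_le
      rw [@norm_sub_sq ℂ, ← inner_re_symm, hTi, hz1]
      have h2 : ‖T (z (φ m))‖ ≤ 1 := by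
        have := hsp.P_le (z (φ m))
        rwa [hz1] at this
      nlinarith [norm_nonneg (T (z (φ m)))]
    have h2 : Tendsto (fun m => Real.sqrt (2 * (1 - ‖K' (z (φ m))‖ ^ 2))) atTop
        (𝓝 (Real.sqrt (2 * (1 - 1 ^ 2)))) :=
      (Real.continuous_sqrt.tendsto _).comp (((hK1.pow 2).const_sub 1).const_mul 2)
    have e : Real.sqrt (2 * (1 - 1 ^ 2)) = 0 := by norm_num
    rw [e] at h2
    exact squeeze_zero (fun m => norm_nonneg _) h1 h2
  refine asm_discrete hU M ?_ (fun m => z (φ m)) (fun m => hz1 _)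
    (fun m => fin_coef hU hb (hz3 _)) hlim ?_
  · intro s
    obtain ⟨a, ha⟩ := M.coef (b 1) (b s)
    refine ⟨a, fun s' => ?_⟩
    rw [ha]
    simp only [hb, mul_one]
    have := orthonormal_iff_ite.1 b.orthonormal s s'
    rw [this]
    by_cases hss : s' = s
    · rw [if_pos hss, if_pos hss.symm]
    · rw [if_neg hss, if_neg (Ne.symm hss)]
  · intro F ε hε
    have h1 : ∀ᶠ n in atTop, ∀ ξ ∈ F, ‖avg T n ξ‖ ≤ ε := by
      rw [Filter.eventually_all_finset]
      intro ξ _
      have := (avg_tendsto hT1 hT0 ξ).norm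
      rw [norm_zero] at this
      exact this.eventually (ge_mem_nhds hε)
    obtain ⟨n, hn1, hn2⟩ := (h1.and (eventually_ge_atTop 1)).exists
    set S := avg T n with hS
    have hSg : Good U S := avg_good hU hsp.goodP n
    have hS1 : ‖S‖ ≤ 1 := avg_norm hT1 n
    have hsp2 := split_of hU hSg hS1
    refine ⟨_, _, hsp2.symm, fun ξ hξ => ?_, ?_⟩
    · rw [mul_apply_eq_comp]
      calc ‖adjoint S (S ξ)‖ ≤ ‖adjoint S‖ * ‖S ξ‖ := (adjoint S).le_opNorm _
        _ ≤ 1 * ‖S ξ‖ := by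
          refine mul_le_mul_of_nonneg_right ?_ (norm_nonneg _)
          rw [LinearIsometryEquiv.norm_map]
          exact hS1
        _ ≤ ε := by rw [one_mul]; exact hn1 ξ hξ
    · have hfix := avg_fix (T := T) (fun m => z (φ m)) hTz (n := n) (by omega)
      rw [← hS] at hfix
      have h2 : ∀ m, ‖(1 - adjoint S * S) (z (φ m))‖ ≤
          Real.sqrt (2 * ‖S (z (φ m)) - z (φ m)‖) := by
        intro m
        apply Real.le_sqrt_of_sq_le
        have h3 : RCLike.re ⟪z (φ m), (adjoint S * S) (z (φ m))⟫_ℂ = ‖S (z (φ m))‖ ^ 2 := by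
          rw [mul_apply_eq_comp, adjoint_inner_right, inner_self_eq_norm_sq]
        have h4 : ‖(adjoint S * S) (z (φ m))‖ ≤ ‖S (z (φ m))‖ := by
          rw [mul_apply_eq_comp]
          calc ‖adjoint S (S (z (φ m)))‖ ≤ ‖adjoint S‖ * ‖S (z (φ m))‖ :=
                (adjoint S).le_opNorm _
            _ ≤ 1 * ‖S (z (φ m))‖ := by
              refine mul_le_mul_of_nonneg_right ?_ (norm_nonneg _)
              rw [LinearIsometryEquiv.norm_map]
              exact hS1
            _ = _ := one_mul _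
        have h5 : 1 - ‖S (z (φ m))‖ ≤ ‖S (z (φ m)) - z (φ m)‖ := by
          have := norm_sub_norm_le (z (φ m)) (S (z (φ m)))
          rw [hz1, norm_sub_rev] at this
          exact this
        have h6 : ‖S (z (φ m))‖ ≤ 1 := by
          refine (S.le_opNorm _).trans ?_
          rw [hz1, mul_one]
          exact hS1
        have h7 := norm_nonneg (S (z (φ m)))
        have h8 := norm_nonneg ((adjoint S * S) (z (φ m)))
        rw [sub_apply, one_apply_eq_self, @norm_sub_sq ℂ, h3, hz1]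
        nlinarith
      have h3 : Tendsto (fun m => Real.sqrt (2 * ‖S (z (φ m)) - z (φ m)‖)) atTop
          (𝓝 (Real.sqrt (2 * ‖(0 : H)‖))) :=
        (Real.continuous_sqrt.tendsto _).comp (hfix.norm.const_mul 2)
      rw [norm_zero, mul_zero, Real.sqrt_zero] at h3
      exact squeeze_zero (fun m => norm_nonneg _) h2 h3

end Run7.h714.FA
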