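import Mathlib

set_option autoImplicit false
set_option linter.unusedSectionVars false

/-!
# Coefficient functions of a unitary representation
-/

namespace Run7.h714.FA

open Filter Topology
open scoped InnerProductSpace ComplexConjugate

variable {G : Type*} [Group G] {H : Type*} [NormedAddCommGroup H] [InnerProductSpace ℂ H]

/-- `U` is a unitary representation of the (abstract) group `G` on the Hilbert space `H`. -/
structure URep (U : G → H →L[ℂ] H) : Prop where
  mul : ∀ s t x, U (s * t) x = U s (U t x)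
  one : ∀ x, U 1 x = x
  inner : ∀ s x y, ⟪U s x, U s y⟫_ℂ = ⟪x, y⟫_ℂ

/-- The operators on which the relations between coefficient functions hold: this is the von
Neumann algebra generated by `U`, described as annihilator. -/
def Good (U : G → H →L[ℂ] H) (S : H →L[ℂ] H) : Prop :=
  ∀ l : List (H × H), (∀ s, (l.map fun p => ⟪p.2, U s p.1⟫_ℂ).sum = 0) →
    (l.map fun p => ⟪p.2, S p.1⟫_ℂ).sum = 0

variable {U : G → H →L[ℂ] H}

theorem URep.norm (hU : URep U) (s : G) (x : H) : ‖U s x‖ = ‖x‖ := by
  have h := hU.inner s x x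
  rw [inner_self_eq_norm_sq_to_K, inner_self_eq_norm_sq_to_K] at h
  have h2 : ‖U s x‖ ^ 2 = ‖x‖ ^ 2 := by exact_mod_cast h
  exact (sq_eq_sq₀ (norm_nonneg _) (norm_nonneg _)).1 h2

theorem URep.inner_left (hU : URep U) (s : G) (x y : H) : ⟪U s x, y⟫_ℂ = ⟪x, U s⁻¹ y⟫_ℂ := by
  rw [← hU.inner s x (U s⁻¹ y), ← hU.mul, mul_inv_cancel, hU.one]

theorem URep.inner_right (hU : URep U) (s : G) (x y : H) : ⟪x, U s y⟫_ℂ = ⟪U s⁻¹ x, y⟫_ℂ := by
  rw [hU.inner_left, inv_inv]

theorem good_U (s : G) : Good U (U s) := fun _ h => h s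

theorem good_zero : Good U 0 := by
  intro l _
  simp

theorem good_one (hU : URep U) : Good U 1 := by
  intro l h
  have := h 1
  simp only [hU.one] at this
  simpa using this

theorem Good.add {S T : H →L[ℂ] H} (hS : Good U S) (hT : Good U T) : Good U (S + T) := by
  intro l h
  have := List.sum_map_add (l := l) (f := fun p : H × H => ⟪p.2, S p.1⟫_ℂ)
    (g := fun p : H × H => ⟪p.2, T p.1⟫_ℂ)
  simp only [add_apply, inner_add_right]
  rw [this, hS l h, hT l h, add_zero]

theorem Good.smul {S : H →L[ℂ] H} (c : ℂ) (hS : Good U S) : Good U (c • S) := by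
  intro l h
  simp only [smul_apply, inner_smul_right]
  rw [List.sum_map_mul_left, hS l h, mul_zero]

theorem Good.neg {S : H →L[ℂ] H} (hS : Good U S) : Good U (-S) := by
  have := hS.smul (-1 : ℂ)
  simpa using this

theorem Good.sub {S T : H →L[ℂ] H} (hS : Good U S) (hT : Good U T) : Good U (S - T) := by
  rw [sub_eq_add_neg]; exact hS.add hT.neg

theorem good_sum {ι : Type*} (s : Finset ι) (S : ι → H →L[ℂ] H) (hS : ∀ i ∈ s, Good U (S i)) :
    Good U (∑ i ∈ s, S i) := by
  classical
  induction s using Finset.induction_on with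
  | empty => simpa using good_zero
  | insert a s ha ih =>
    rw [Finset.sum_insert ha]
    exact (hS a (Finset.mem_insert_self _ _)).add (ih fun i hi => hS i (Finset.mem_insert_of_mem hi))

theorem good_of_tendsto {S : ℕ → H →L[ℂ] H} {T : H →L[ℂ] H} (hS : ∀ n, Good U (S n))
    (h : Tendsto S atTop (𝓝 T)) : Good U T := by
  intro l hl
  have hc : ∀ l : List (H × H), Tendsto (fun n => (l.map fun p => ⟪p.2, S n p.1⟫_ℂ).sum) atTop
      (𝓝 (l.map fun p => ⟪p.2, T p.1⟫_ℂ).sum) := by
    intro l
    induction l with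
    | nil => simp
    | cons p l ih =>
      simp only [List.map_cons, List.sum_cons]
      refine Tendsto.add ?_ ih
      have h1 : Tendsto (fun n => S n p.1) atTop (𝓝 (T p.1)) :=
        ((ContinuousLinearMap.apply ℂ H p.1).continuous.tendsto T).comp h
      exact (tendsto_const_nhds (x := p.2)).inner h1
  refine tendsto_nhds_unique (hc l) ?_
  simp only [hS _ l hl]
  exact tendsto_const_nhds

section complete
variable [CompleteSpace H]

open ContinuousLinearMap in
theorem Good.mul (hU : URep U) {S T : H →L[ℂ] H} (hS : Good U S) (hT : Good U T) :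
    Good U (S * T) := by
  intro l h
  have h1 := hT (l.map fun p => (p.1, adjoint S p.2)) (by
    intro t
    have h2 := hS (l.map fun p => (U t p.1, p.2)) (by
      intro s
      have h3 := h (s * t)
      simp only [hU.mul] at h3
      simpa [List.map_map, Function.comp_def] using h3)
    simpa [List.map_map, Function.comp_def, adjoint_inner_left] using h2)
  simpa [List.map_map, Function.comp_def, adjoint_inner_left] using h1

open ContinuousLinearMap in
theorem Good.adj (hU : URep U) {S : H →L[ℂ] H} (hS : Good U S) : Good U (adjoint S) := by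
  intro l h
  have h1 := hS (l.map fun p => (p.2, p.1)) (by
    intro s
    have h2 := h s⁻¹
    have h3 := congrArg conj h2
    rw [map_zero, map_list_sum] at h3
    simp only [List.map_map, Function.comp_def, inner_conj_symm] at h3
    simp only [List.map_map, Function.comp_def]
    rw [← h3]
    congr 1
    apply List.map_congr_left
    intro p _
    rw [hU.inner_right])
  have h3 := congrArg conj h1
  rw [map_zero, map_list_sum] at h3
  simp only [List.map_map, Function.comp_def, inner_conj_symm] at h3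
  rw [← h3]
  congr 1
  apply List.map_congr_left
  intro p _
  rw [adjoint_inner_right]

theorem Good.pow (hU : URep U) {S : H →L[ℂ] H} (hS : Good U S) (n : ℕ) : Good U (S ^ n) := by
  induction n with
  | zero => rw [pow_zero]; exact good_one hU
  | succ n ih => rw [pow_succ]; exact ih.mul hU hS

end complete

/-- `A` is a normed algebra of functions on `G`: its elements are the coefficient functions of `U`,
with the norm `inf ‖ξ‖ ‖η‖`. -/
structure Coef (U : G → H →L[ℂ] H) (A : Type*) [NonUnitalNormedRing A] [NormedSpace ℂ A] where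
  ι : A →ₗ[ℂ] (G → ℂ)
  inj : Function.Injective ι
  mul : ∀ a b s, ι (a * b) s = ι a s * ι b s
  coef : ∀ ξ η : H, ∃ a : A, ι a = fun s => ⟪η, U s ξ⟫_ℂ
  le : ∀ (a : A) (ξ η : H), (ι a = fun s => ⟪η, U s ξ⟫_ℂ) → ‖a‖ ≤ ‖ξ‖ * ‖η‖
  rep : ∀ (a : A) (ε : ℝ), 0 < ε → ∃ ξ η : H, (ι a = fun s => ⟪η, U s ξ⟫_ℂ) ∧
    ‖ξ‖ * ‖η‖ ≤ ‖a‖ + ε

variable {A : Type*} [NonUnitalNormedRing A] [NormedSpace ℂ A]

theorem Coef.comm (M : Coef U A) (a b : A) : a * b = b * a := by
  apply M.inj
  ext s
  rw [M.mul, M.mul, mul_comm]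

/-- the functional on `A` given by an operator -/
theorem Coef.exists_fun (M : Coef U A) {S : H →L[ℂ] H} (hS : Good U S) :
    ∃ f : A →L[ℂ] ℂ, ‖f‖ ≤ ‖S‖ ∧ ∀ (a : A) (ξ η : H), (M.ι a = fun s => ⟪η, U s ξ⟫_ℂ) →
      f a = ⟪η, S ξ⟫_ℂ := by
  choose X Y hXY _ using fun a => M.rep a 1 one_pos
  have hw : ∀ (a : A) (ξ η : H), (M.ι a = fun s => ⟪η, U s ξ⟫_ℂ) →
      ⟪Y a, S (X a)⟫_ℂ = ⟪η, S ξ⟫_ℂ := by
    intro a ξ η h
    have := hS [(X a, Y a), (ξ, -η)] (by
      intro s
      have h1 := congrFun (hXY a) s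
      have h2 := congrFun h s
      simp only [List.map_cons, List.map_nil, List.sum_cons, List.sum_nil, inner_neg_left,
        add_zero]
      rw [← h1, ← h2, add_neg_cancel])
    simp only [List.map_cons, List.map_nil, List.sum_cons, List.sum_nil, inner_neg_left,
        add_zero] at this
    exact add_neg_eq_zero.1 this
  refine ⟨LinearMap.mkContinuous
    { toFun := fun a => ⟪Y a, S (X a)⟫_ℂ
      map_add' := ?_
      map_smul' := ?_ } ‖S‖ ?_, LinearMap.mkContinuous_norm_le _ (norm_nonneg _) _, ?_⟩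
  · intro a b
    have := hS [(X (a + b), Y (a + b)), (X a, -Y a), (X b, -Y b)] (by
      intro s
      have h1 := congrFun (hXY a) s
      have h2 := congrFun (hXY b) s
      have h3 := congrFun (hXY (a + b)) s
      simp only [List.map_cons, List.map_nil, List.sum_cons, List.sum_nil, inner_neg_left,
        add_zero]
      rw [← h1, ← h2, ← h3, map_add, Pi.add_apply]
      ring)
    simp only [List.map_cons, List.map_nil, List.sum_cons, List.sum_nil, inner_neg_left,
        add_zero] at this
    linear_combination this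
  · intro c a
    simp only [RingHom.id_apply, smul_eq_mul]
    rw [hw (c • a) (c • X a) (Y a)]
    · rw [map_smul, inner_smul_right]
    · ext s
      have h1 := congrFun (hXY a) s
      rw [map_smul, Pi.smul_apply, h1, map_smul, inner_smul_right, smul_eq_mul]
  · intro a
    simp only [LinearMap.coe_mk, AddHom.coe_mk]
    apply le_of_forall_pos_le_add
    intro ε hε
    have hp : 0 < ‖S‖ + 1 := by positivity
    obtain ⟨ξ, η, h1, h2⟩ := M.rep a (ε / (‖S‖ + 1)) (by positivity)
    rw [hw a ξ η h1]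
    calc ‖⟪η, S ξ⟫_ℂ‖ ≤ ‖η‖ * ‖S ξ‖ := norm_inner_le_norm _ _
      _ ≤ ‖η‖ * (‖S‖ * ‖ξ‖) := mul_le_mul_of_nonneg_left (S.le_opNorm _) (norm_nonneg _)
      _ = ‖S‖ * (‖ξ‖ * ‖η‖) := by ring
      _ ≤ ‖S‖ * (‖a‖ + ε / (‖S‖ + 1)) := mul_le_mul_of_nonneg_left h2 (norm_nonneg _)
      _ = ‖S‖ * ‖a‖ + ε * (‖S‖ / (‖S‖ + 1)) := by ring
      _ ≤ ‖S‖ * ‖a‖ + ε := by
        have : ‖S‖ / (‖S‖ + 1) ≤ 1 := by rw [div_le_one hp]; linarith
        nlinarith
  · intro a ξ η h
    exact hw a ξ η h

end Run7.h714.FA
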