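import Pool.Agent.Run7.h714.FA.Defs
import Pool.Agent.Run7.h714.FA.Good

set_option autoImplicit false
set_option linter.unusedSectionVars false

/-!
# The left regular representation
-/

namespace Run7.h714.FA

open MeasureTheory Filter Topology
open scoped InnerProductSpace ComplexConjugate ENNReal

variable {G : Type*} [Group G] [TopologicalSpace G] [IsTopologicalGroup G]
  [MeasurableSpace G] [BorelSpace G] (μ : Measure G) [μ.IsMulLeftInvariant]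

/-- The left regular representation on `L²(G)`: `(lam s ξ)(x) = ξ(s⁻¹ x)`. -/
noncomputable def lam (s : G) : Lp ℂ 2 μ →L[ℂ] Lp ℂ 2 μ :=
  (Lp.compMeasurePreservingₗᵢ ℂ (fun x => s⁻¹ * x)
    (measurePreserving_mul_left μ s⁻¹)).toContinuousLinearMap

theorem lam_eq (s : G) (ξ : Lp ℂ 2 μ) : lam μ s ξ = DomMulAct.mk s⁻¹ • ξ := rfl

theorem lam_ae (s : G) (ξ : Lp ℂ 2 μ) : lam μ s ξ =ᵐ[μ] fun x => ξ (s⁻¹ * x) :=
  Lp.coeFn_compMeasurePreserving _ _

theorem urep_lam : URep (lam μ) := by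
  refine ⟨?_, ?_, ?_⟩
  · intro s t x
    rw [lam_eq, lam_eq, lam_eq, mul_inv_rev, DomMulAct.mk_mul, mul_smul]
  · intro x
    rw [lam_eq, inv_one, DomMulAct.mk_one, one_smul]
  · intro s x y
    exact (Lp.compMeasurePreservingₗᵢ ℂ (fun x => s⁻¹ * x)
      (measurePreserving_mul_left μ s⁻¹)).inner_map_map x y

theorem coeff_eq (ξ η : Lp ℂ 2 μ) (s : G) : coeff μ ξ η s = ⟪η, lam μ s ξ⟫_ℂ := by
  rw [L2.inner_def, coeff]
  apply integral_congr_ae
  filter_upwards [lam_ae μ s ξ] with x hx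
  rw [hx]
  rfl

theorem FourierAlg.coef {A : Type*} [NonUnitalNormedRing A] [NormedSpace ℂ A]
    (M : FourierAlg μ A) : ∃ N : Coef (lam μ) A, ∀ a, N.ι a = M.fn a := by
  have hc : ∀ (a : A) (ξ η : Lp ℂ 2 μ), M.fn a = coeff μ ξ η ↔
      M.fn a = fun s => ⟪η, lam μ s ξ⟫_ℂ := by
    intro a ξ η
    have : coeff μ ξ η = fun s => ⟪η, lam μ s ξ⟫_ℂ := funext fun s => coeff_eq μ ξ η s
    rw [this]
  have hne : ∀ a : A, {r : ℝ | ∃ ξ η : Lp ℂ 2 μ, M.fn a = coeff μ ξ η ∧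
      r = ‖ξ‖ * ‖η‖}.Nonempty := by
    intro a
    obtain ⟨ξ, η, h⟩ := (M.range (M.fn a)).1 ⟨a, rfl⟩
    exact ⟨_, ξ, η, h, rfl⟩
  have hbd : ∀ a : A, BddBelow {r : ℝ | ∃ ξ η : Lp ℂ 2 μ, M.fn a = coeff μ ξ η ∧
      r = ‖ξ‖ * ‖η‖} := by
    intro a
    refine ⟨0, ?_⟩
    rintro r ⟨ξ, η, _, rfl⟩
    positivity
  refine ⟨{ ι := { toFun := M.fn
                   map_add' := fun a b => funext fun s => M.add a b s
                   map_smul' := fun c a => funext fun s => M.smul c a s }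
            inj := fun a b h => M.injective a b h
            mul := M.mul
            coef := ?_
            le := ?_
            rep := ?_ }, fun a => rfl⟩
  · intro ξ η
    obtain ⟨a, ha⟩ := (M.range (coeff μ ξ η)).2 ⟨ξ, η, rfl⟩
    exact ⟨a, (hc a ξ η).1 ha⟩
  · intro a ξ η h
    rw [M.norm]
    exact csInf_le (hbd a) ⟨ξ, η, (hc a ξ η).2 h, rfl⟩
  · intro a ε hε
    obtain ⟨r, ⟨ξ, η, h, rfl⟩, hr⟩ := exists_lt_of_csInf_lt (hne a)
      (show sInf {r : ℝ | ∃ ξ η : Lp ℂ 2 μ, M.fn a = coeff μ ξ η ∧ r = ‖ξ‖ * ‖η‖} < ‖a‖ + ε by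
        rw [← M.norm]; linarith)
    exact ⟨ξ, η, (hc a ξ η).1 h, hr.le⟩

theorem lam_indicator (s : G) {V : Set G} (hV : MeasurableSet V) (hμ : μ V ≠ ∞) (c : ℂ) :
    ∃ h : μ ((fun x => s⁻¹ * x) ⁻¹' V) ≠ ∞,
      lam μ s (indicatorConstLp 2 hV hμ c) =
        indicatorConstLp 2 (hV.preimage (measurable_const_mul s⁻¹)) h c := by
  refine ⟨by rwa [measure_preimage_mul], ?_⟩
  rw [lam_eq, DomMulAct.mk_smul_indicatorConstLp]

theorem inner_lam_indicator (s t : G) {V : Set G} (hV : MeasurableSet V) (hμ : μ V ≠ ∞) (c : ℂ)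
    (h : ∀ x, s⁻¹ * x ∈ V → t⁻¹ * x ∈ V → False) :
    ⟪lam μ s (indicatorConstLp 2 hV hμ c), lam μ t (indicatorConstLp 2 hV hμ c)⟫_ℂ = 0 := by
  obtain ⟨h1, e1⟩ := lam_indicator μ s hV hμ c
  obtain ⟨h2, e2⟩ := lam_indicator μ t hV hμ c
  rw [e1, e2, L2.inner_indicatorConstLp_indicatorConstLp]
  have : (fun x => s⁻¹ * x) ⁻¹' V ∩ (fun x => t⁻¹ * x) ⁻¹' V = ∅ := by
    ext x
    simp only [Set.mem_inter_iff, Set.mem_preimage, Set.mem_empty_iff_false, iff_false, not_and]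
    exact fun a b => h x a b
  rw [this]
  simp

/-- the normalised indicator function -/
noncomputable def zet {V : Set G} (hV : MeasurableSet V) (hμ : μ V ≠ ∞) : Lp ℂ 2 μ :=
  indicatorConstLp 2 hV hμ ((1 / Real.sqrt (μ.real V) : ℝ) : ℂ)

theorem norm_zet {V : Set G} (hV : MeasurableSet V) (hμ : μ V ≠ ∞) (h0 : μ V ≠ 0) :
    ‖zet μ hV hμ‖ = 1 := by
  have hp : 0 < μ.real V := ENNReal.toReal_pos h0 hμ
  have h1 : ⟪zet μ hV hμ, zet μ hV hμ⟫_ℂ = 1 := by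
    rw [zet, L2.inner_indicatorConstLp_indicatorConstLp, Set.inter_self]
    simp only [RCLike.inner_apply, Complex.conj_ofReal, Complex.real_smul]
    rw [← Complex.ofReal_mul, ← Complex.ofReal_mul, div_mul_div_comm, one_mul,
      Real.mul_self_sqrt hp.le]
    rw [mul_one_div_cancel hp.ne']
    norm_num
  have h2 : ‖zet μ hV hμ‖ ^ 2 = 1 := by rw [← inner_self_eq_norm_sq (𝕜 := ℂ), h1]; simp
  have h3 := norm_nonneg (zet μ hV hμ)
  nlinarith

theorem lam_tendsto [R1Space G] [IsLocallyFiniteMeasure μ] [μ.InnerRegularCompactLTTop]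
    (ξ : Lp ℂ 2 μ) : Tendsto (fun s => lam μ s ξ) (𝓝 1) (𝓝 ξ) := by
  have : Fact ((2 : ℝ≥0∞) ≠ ∞) := ⟨by norm_num⟩
  have h1 : Continuous fun s : G => (DomMulAct.mk s⁻¹ : Gᵈᵐᵃ) • ξ := by
    have : Continuous fun s : G => (DomMulAct.mk s⁻¹ : Gᵈᵐᵃ) :=
      DomMulAct.continuous_mk.comp continuous_inv
    exact this.smul continuous_const
  have h2 := h1.tendsto 1
  rw [inv_one, DomMulAct.mk_one, one_smul] at h2
  exact h2

end Run7.h714.FA
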