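import Pool.Agent.Run7.h714.FA.NonDisc
import Pool.Agent.Run7.h714.FA.Disc

set_option autoImplicit false
set_option linter.unusedSectionVars false

/-!
# The radical of the second dual of the Fourier algebra
-/

namespace Run7.h714.FA

open MeasureTheory Filter Topology H434R3.Arens
open scoped InnerProductSpace ComplexConjugate ENNReal

variable {G : Type*} [Group G] [TopologicalSpace G] [IsTopologicalGroup G]
  [MeasurableSpace G] [BorelSpace G] (μ : Measure G)

theorem indicator_congr {V W : Set G} (h : V = W) (hV : MeasurableSet V) (hW : MeasurableSet W)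
    (hμV : μ V ≠ ∞) (hμW : μ W ≠ ∞) (c : ℂ) :
    indicatorConstLp 2 hV hμV c = indicatorConstLp 2 hW hμW c := by
  subst h; rfl

section discrete
variable [DiscreteTopology G] [μ.IsHaarMeasure]

theorem point_ne_top (x : G) : μ {x} ≠ ∞ := by
  have : IsCompact ({x} : Set G) := isCompact_singleton
  exact this.measure_lt_top.ne

theorem point_ne_zero (x : G) : μ {x} ≠ 0 := by
  have : IsOpen ({x} : Set G) := isOpen_discrete _
  exact this.measure_ne_zero μ (Set.singleton_nonempty x)

theorem point_eq (x : G) : μ {x} = μ {(1 : G)} := by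
  have := measure_preimage_mul μ x⁻¹ {(1 : G)}
  rw [← this]
  congr 1
  ext y
  simp [eq_comm]

/-- the unit point masses -/
noncomputable def pt (x : G) : Lp ℂ 2 μ :=
  indicatorConstLp 2 (MeasurableSet.singleton x) (point_ne_top μ x)
    ((1 / Real.sqrt (μ.real {(1 : G)}) : ℝ) : ℂ)

theorem lam_pt (s x : G) : lam μ s (pt μ x) = pt μ (s * x) := by
  obtain ⟨h, e⟩ := lam_indicator μ s (MeasurableSet.singleton x) (point_ne_top μ x)
    ((1 / Real.sqrt (μ.real {(1 : G)}) : ℝ) : ℂ)
  rw [pt, e, pt]
  apply indicator_congr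
  ext y
  simp

theorem orthonormal_pt : Orthonormal ℂ (pt μ) := by
  constructor
  · intro x
    have h1 : ‖pt μ x‖ = ‖zet μ (MeasurableSet.singleton x) (point_ne_top μ x)‖ := by
      have : μ.real {(1 : G)} = μ.real {x} := by
        rw [Measure.real, Measure.real, point_eq μ x]
      rw [pt, zet, this]
    rw [h1]
    exact norm_zet μ _ _ (point_ne_zero μ x)
  · intro x y hxy
    rw [pt, pt, L2.inner_indicatorConstLp_indicatorConstLp (MeasurableSet.singleton x)
      (MeasurableSet.singleton y) (point_ne_top μ x) (point_ne_top μ y)]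
    have : ({x} : Set G) ∩ {y} = ∅ := by
      rw [Set.singleton_inter_eq_empty]
      exact fun h => hxy h
    rw [this]
    simp

theorem complete_pt : (Submodule.span ℂ (Set.range (pt μ)))ᗮ = ⊥ := by
  rw [Submodule.eq_bot_iff]
  intro ξ hξ
  have h1 : ∀ x, ξ x = 0 := by
    intro x
    have h2 := (Submodule.mem_orthogonal _ _).1 hξ (pt μ x) (Submodule.subset_span ⟨x, rfl⟩)
    rw [pt, L2.inner_indicatorConstLp_eq_setIntegral_inner, integral_singleton] at h2
    have h3 : μ.real {x} ≠ 0 := by
      rw [Measure.real, ENNReal.toReal_ne_zero]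
      exact ⟨point_ne_zero μ x, point_ne_top μ x⟩
    have h4 := (smul_eq_zero.1 h2).resolve_left h3
    rw [RCLike.inner_apply, mul_eq_zero] at h4
    rcases h4 with h4 | h4
    · exact h4
    · exfalso
      rw [map_eq_zero, Complex.ofReal_eq_zero] at h4
      have h5 : 0 < μ.real {(1 : G)} := ENNReal.toReal_pos (point_ne_zero μ 1) (point_ne_top μ 1)
      have h6 : 0 < 1 / Real.sqrt (μ.real {(1 : G)}) := by positivity
      exact h6.ne' h4
  apply Lp.ext
  have h2 : (ξ : G → ℂ) =ᵐ[μ] 0 := Eventually.of_forall h1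
  exact h2.trans (Lp.coeFn_zero ℂ 2 μ).symm

end discrete

/-- **The radical of `A(G)''` is nonzero for every infinite locally compact group `G`.** -/
theorem main [LocallyCompactSpace G] [T2Space G] [Infinite G] [μ.IsHaarMeasure] [μ.Regular]
    {A : Type*} [NonUnitalNormedRing A] [NormedSpace ℂ A] [IsScalarTower ℂ A A]
    [SMulCommClass ℂ A A] (M : FourierAlg μ A) :
    ∃ Φ : Bidual A, Φ ≠ 0 ∧ InRad Φ ∧ ∀ Ψ : Bidual A, Φ * Ψ * Φ = 0 := by
  obtain ⟨N, _⟩ := M.coef
  have key : ∃ Φ : Bidual A, Φ ≠ 0 ∧ ∀ Ψ : Bidual A, Φ * Ψ * Φ = 0 := by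
    by_cases hG : (𝓝[≠] (1 : G)).NeBot
    · exact nondiscrete μ hG N
    · have hdt : DiscreteTopology G := by
        rw [not_neBot, ← isOpen_singleton_iff_punctured_nhds] at hG
        exact discreteTopology_of_isOpen_singleton_one hG
      refine discrete (urep_lam μ)
        (b := HilbertBasis.mkOfOrthogonalEqBot (orthonormal_pt μ) (complete_pt μ)) ?_ N
      intro s x
      rw [HilbertBasis.coe_mkOfOrthogonalEqBot]
      exact lam_pt μ s x
  obtain ⟨Φ, h1, h2⟩ := key
  exact ⟨Φ, h1, inRad_of_nil Φ h2, h2⟩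

end Run7.h714.FA
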