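import Pool.Agent.Run7.h714.FA.Lam
import Pool.Agent.Run7.h714.FA.Asm

set_option autoImplicit false
set_option linter.unusedSectionVars false

/-!
# Non-discrete groups
-/

namespace Run7.h714.FA

open MeasureTheory Filter Topology H434R3.Arens
open scoped InnerProductSpace ComplexConjugate ENNReal

/-- averages of finitely many operators `U s` which almost fix `F` -/
theorem average {G : Type*} [Group G] {H : Type*} [NormedAddCommGroup H] [InnerProductSpace ℂ H]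
    [CompleteSpace H] {U : G → H →L[ℂ] H} (hU : URep U) (T : Finset G) (hT : T.Nonempty)
    (F : Finset H) (ε : ℝ) (hε : 0 ≤ ε) (h : ∀ s ∈ T, ∀ ξ ∈ F, ‖U s ξ - ξ‖ ≤ ε) :
    ∃ P Q : H →L[ℂ] H, Split U P Q ∧ (∀ ξ ∈ F, ‖Q ξ‖ ≤ 2 * ε) ∧
      ∀ ζ : H, ‖ζ‖ = 1 → (∀ s ∈ T, ∀ t ∈ T, s ≠ t → ⟪U s ζ, U t ζ⟫_ℂ = 0) →
        ‖P ζ‖ ^ 2 ≤ 1 / T.card := by
  set n : ℕ := T.card with hn
  have hn0 : 0 < (n : ℝ) := by exact_mod_cast hT.card_pos
  set K : H →L[ℂ] H := ((n : ℂ)⁻¹) • ∑ s ∈ T, U s with hK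
  have hKa : ∀ x, K x = ((n : ℂ)⁻¹) • ∑ s ∈ T, U s x := fun x => by
    rw [hK, smul_apply, sum_apply]
  have hKg : Good U K := (good_sum T _ fun s _ => good_U s).smul _
  have hbound : ∀ (g : G → H) (C : ℝ), (∀ s ∈ T, ‖g s‖ ≤ C) →
      ‖((n : ℂ)⁻¹) • ∑ s ∈ T, g s‖ ≤ C := by
    intro g C hg
    rw [norm_smul, norm_inv, Complex.norm_natCast]
    calc (n : ℝ)⁻¹ * ‖∑ s ∈ T, g s‖ ≤ (n : ℝ)⁻¹ * ∑ s ∈ T, ‖g s‖ := by
          gcongr; exact norm_sum_le _ _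
      _ ≤ (n : ℝ)⁻¹ * ∑ s ∈ T, C := by gcongr with s hs; exact hg s hs
      _ = C := by rw [Finset.sum_const, nsmul_eq_mul, ← hn]; field_simp
  have hconst : ∀ x : H, ((n : ℂ)⁻¹) • ∑ s ∈ T, x = x := by
    intro x
    rw [Finset.sum_const, ← hn, ← Nat.cast_smul_eq_nsmul ℂ, smul_smul, inv_mul_cancel₀, one_smul]
    exact_mod_cast hn0.ne'
  have hK1 : ‖K‖ ≤ 1 := by
    refine ContinuousLinearMap.opNorm_le_bound _ zero_le_one fun x => ?_
    rw [hKa, one_mul]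
    exact hbound _ _ fun s _ => (hU.norm s x).le
  have hF1 : ∀ ξ ∈ F, ‖K ξ - ξ‖ ≤ ε := by
    intro ξ hξ
    have : K ξ - ξ = ((n : ℂ)⁻¹) • ∑ s ∈ T, (U s ξ - ξ) := by
      rw [Finset.sum_sub_distrib, smul_sub, hconst, hKa]
    rw [this]
    exact hbound _ _ fun s hs => h s hs ξ hξ
  have hadj : ∀ x, ContinuousLinearMap.adjoint K x = ((n : ℂ)⁻¹) • ∑ s ∈ T, U s⁻¹ x := by
    intro x
    refine ext_inner_left ℂ fun y => ?_
    rw [ContinuousLinearMap.adjoint_inner_right, hKa, inner_smul_left, inner_smul_right,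
      sum_inner, inner_sum]
    congr 1
    · simp
    · exact Finset.sum_congr rfl fun s _ => hU.inner_left s y x
  have hF2 : ∀ ξ ∈ F, ‖ContinuousLinearMap.adjoint K ξ - ξ‖ ≤ ε := by
    intro ξ hξ
    have : ContinuousLinearMap.adjoint K ξ - ξ = ((n : ℂ)⁻¹) • ∑ s ∈ T, (U s⁻¹ ξ - ξ) := by
      rw [Finset.sum_sub_distrib, smul_sub, hconst, hadj]
    rw [this]
    refine hbound _ _ fun s hs => ?_
    have e : U s⁻¹ ξ - ξ = -(U s⁻¹ (U s ξ - ξ)) := by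
      rw [map_sub, ← hU.mul, inv_mul_cancel, hU.one]; abel
    rw [e, norm_neg, hU.norm]
    exact h s hs ξ hξ
  have hadj1 : ∀ x, ‖ContinuousLinearMap.adjoint K x‖ ≤ ‖x‖ := by
    intro x
    rw [hadj]
    exact hbound _ _ fun s _ => (hU.norm _ x).le
  refine ⟨_, _, split_of hU hKg hK1, ?_, ?_⟩
  · intro ξ hξ
    have e : (1 - ContinuousLinearMap.adjoint K * K) ξ
        = -(ContinuousLinearMap.adjoint K ξ - ξ) - ContinuousLinearMap.adjoint K (K ξ - ξ) := by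
      rw [sub_apply, one_apply_eq_self, mul_apply_eq_comp, map_sub]; abel
    rw [e]
    calc ‖-(ContinuousLinearMap.adjoint K ξ - ξ) - ContinuousLinearMap.adjoint K (K ξ - ξ)‖
        ≤ ‖-(ContinuousLinearMap.adjoint K ξ - ξ)‖ + ‖ContinuousLinearMap.adjoint K (K ξ - ξ)‖ :=
          norm_sub_le _ _
      _ ≤ ε + ε := by
          rw [norm_neg]
          exact add_le_add (hF2 ξ hξ) ((hadj1 _).trans (hF1 ξ hξ))
      _ = 2 * ε := by ring
  · intro ζ hζ ho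
    have h1 : ‖(ContinuousLinearMap.adjoint K * K) ζ‖ ≤ ‖K ζ‖ := hadj1 _
    have h2 : ‖K ζ‖ ^ 2 = 1 / n := by
      have h3 : ‖∑ s ∈ T, U s ζ‖ ^ 2 = n := by
        have h4 : ⟪∑ s ∈ T, U s ζ, ∑ s ∈ T, U s ζ⟫_ℂ = n := by
          rw [sum_inner]
          have : ∀ s ∈ T, ⟪U s ζ, ∑ s ∈ T, U s ζ⟫_ℂ = 1 := by
            intro s hs
            rw [inner_sum, Finset.sum_eq_single s]
            · rw [hU.inner, inner_self_eq_norm_sq_to_K, hζ]; simp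
            · intro t ht hts
              exact ho s hs t ht hts.symm
            · intro h; exact absurd hs h
          rw [Finset.sum_congr rfl this, Finset.sum_const, ← hn]; simp
        rw [← inner_self_eq_norm_sq (𝕜 := ℂ), h4]; simp
      rw [hKa, norm_smul, norm_inv, Complex.norm_natCast, mul_pow, h3]
      field_simp
    calc ‖(ContinuousLinearMap.adjoint K * K) ζ‖ ^ 2 ≤ ‖K ζ‖ ^ 2 :=
          pow_le_pow_left₀ (norm_nonneg _) h1 2
      _ = 1 / n := h2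

variable {G : Type*} [Group G] [TopologicalSpace G] [IsTopologicalGroup G]
  [LocallyCompactSpace G] [T2Space G] [MeasurableSpace G] [BorelSpace G] (μ : Measure G)
  [μ.IsHaarMeasure] [μ.Regular]

/-- small open sets -/
theorem exists_small (N : Set G) (hN : N ∈ 𝓝 (1 : G)) : ∃ V : Set G, IsOpen V ∧ (1 : G) ∈ V ∧
    V ⊆ N ∧ μ V ≠ ∞ ∧ μ V ≠ 0 := by
  obtain ⟨K, hK, hK1⟩ := exists_compact_mem_nhds (1 : G)
  obtain ⟨V, hV1, hV2, hV3⟩ := mem_nhds_iff.1 (inter_mem hN hK1)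
  refine ⟨V, hV2, hV3, hV1.trans Set.inter_subset_left, ?_, ?_⟩
  · exact ((measure_mono (hV1.trans Set.inter_subset_right)).trans_lt hK.measure_lt_top).ne
  · exact (hV2.measure_pos μ ⟨1, hV3⟩).ne'

theorem nondiscrete_step (hG : (𝓝[≠] (1 : G)).NeBot) (N : Set G) (hN : N ∈ 𝓝 (1 : G))
    (F : Finset (Lp ℂ 2 μ)) (ε : ℝ) (hε : 0 < ε) :
    ∃ P Q : Lp ℂ 2 μ →L[ℂ] Lp ℂ 2 μ, Split (lam μ) P Q ∧ (∀ ξ ∈ F, ‖Q ξ‖ ≤ ε) ∧
      ∃ (V : Set G) (hV : MeasurableSet V) (hμ : μ V ≠ ∞), μ V ≠ 0 ∧ V ⊆ N ∧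
        ‖P (zet μ hV hμ)‖ ≤ ε := by
  classical
  -- many points near 1
  have hW : {s : G | ∀ ξ ∈ F, ‖lam μ s ξ - ξ‖ < ε / 2} ∈ 𝓝 (1 : G) := by
    have : {s : G | ∀ ξ ∈ F, ‖lam μ s ξ - ξ‖ < ε / 2} =
        ⋂ ξ ∈ F, {s : G | ‖lam μ s ξ - ξ‖ < ε / 2} := by
      ext s; simp
    rw [this, Filter.biInter_finset_mem]
    intro ξ _
    have h1 : Tendsto (fun s => ‖lam μ s ξ - ξ‖) (𝓝 1) (𝓝 ‖ξ - ξ‖) :=
      ((lam_tendsto μ ξ).sub_const ξ).norm
    rw [sub_self, norm_zero] at h1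
    exact h1.eventually (gt_mem_nhds (by positivity))
  obtain ⟨n, hn⟩ := exists_nat_gt (1 / ε ^ 2)
  have hn0 : 0 < (n : ℝ) := lt_trans (by positivity) hn
  obtain ⟨T, hT1, hT2⟩ := (infinite_of_mem_nhds (1 : G) hW).exists_subset_card_eq n
  have hTne : T.Nonempty := by
    rw [← Finset.card_pos, hT2]; exact_mod_cast hn0
  obtain ⟨P, Q, h1, h2, h3⟩ := average (urep_lam μ) T hTne F (ε / 2) (by positivity)
    (fun s hs ξ hξ => (hT1 hs ξ hξ).le)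
  refine ⟨P, Q, h1, fun ξ hξ => (h2 ξ hξ).trans (by linarith), ?_⟩
  obtain ⟨O, hO1, hO2⟩ := T.finite_toSet.t2_separation
  have hN' : N ∩ ⋂ s ∈ T, (fun v => s * v) ⁻¹' (O s) ∈ 𝓝 (1 : G) := by
    refine inter_mem hN ?_
    rw [Filter.biInter_finset_mem]
    intro s _
    have : Continuous fun v : G => s * v := continuous_const_mul s
    refine this.continuousAt.preimage_mem_nhds ?_
    rw [mul_one]
    exact (hO1 s).2.mem_nhds (hO1 s).1
  obtain ⟨V, hV1, hV2, hV3, hV4, hV5⟩ := exists_small μ _ hN'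
  refine ⟨V, hV1.measurableSet, hV4, hV5, hV3.trans Set.inter_subset_left, ?_⟩
  have h4 := h3 (zet μ hV1.measurableSet hV4) (norm_zet μ _ _ hV5) (by
    intro s hs t ht hst
    apply inner_lam_indicator
    intro x hx1 hx2
    have a1 : s * (s⁻¹ * x) ∈ O s := by
      have := (hV3 hx1).2
      simp only [Set.mem_iInter] at this
      exact this s hs
    have a2 : t * (t⁻¹ * x) ∈ O t := by
      have := (hV3 hx2).2
      simp only [Set.mem_iInter] at this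
      exact this t ht
    rw [mul_inv_cancel_left] at a1 a2
    exact Set.disjoint_left.1 (hO2 hs ht hst) a1 a2)
  rw [hT2] at h4
  have h5 : 1 / (n : ℝ) ≤ ε ^ 2 := by
    rw [div_le_iff₀ hn0]
    rw [div_lt_iff₀ (by positivity)] at hn
    linarith
  exact le_of_sq_le_sq (h4.trans h5) hε.le

theorem nondiscrete (hG : (𝓝[≠] (1 : G)).NeBot) {A : Type*} [NonUnitalNormedRing A]
    [NormedSpace ℂ A] [IsScalarTower ℂ A A] [SMulCommClass ℂ A A] (M : Coef (lam μ) A) :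
    ∃ Φ : Bidual A, Φ ≠ 0 ∧ ∀ Ψ : Bidual A, Φ * Ψ * Φ = 0 := by
  have : Infinite G := by
    have := infinite_of_mem_nhds (1 : G) (univ_mem (f := 𝓝 (1 : G)))
    exact Set.infinite_univ_iff.1 this
  obtain ⟨O, hO1, hO2, hO3⟩ := exists_seq_infinite_isOpen_pairwise_disjoint G
  choose t ht using fun n => (hO1 n).nonempty
  have hN : ∀ i, ∃ N ∈ 𝓝 (1 : G), ∀ v ∈ N, ∀ w ∈ N, t i * (v * w⁻¹) ∈ O i := by
    intro i
    have hc : Continuous fun p : G × G => t i * (p.1 * p.2⁻¹) := by fun_prop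
    have := hc.continuousAt (x := ((1 : G), (1 : G)))
    have h1 : (fun p : G × G => t i * (p.1 * p.2⁻¹)) ⁻¹' (O i) ∈ 𝓝 ((1 : G), (1 : G)) := by
      apply this.preimage_mem_nhds
      simp only [inv_one, mul_one]
      exact (hO2 i).mem_nhds (ht i)
    rw [nhds_prod_eq, mem_prod_self_iff] at h1
    obtain ⟨N, hN1, hN2⟩ := h1
    exact ⟨N, hN1, fun v hv w hw => hN2 (Set.mk_mem_prod hv hw)⟩
  choose N hN1 hN2 using hN
  refine asm_disjoint (urep_lam μ) M t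
    (fun i => {z | ∃ (V : Set G) (hV : MeasurableSet V) (hμ : μ V ≠ ∞), μ V ≠ 0 ∧ V ⊆ N i ∧
      z = zet μ hV hμ}) ?_ ?_ ?_
  · rintro i _ ⟨V, hV, hμ, h0, _, rfl⟩
    exact norm_zet μ hV hμ h0
  · intro i F ε hε
    obtain ⟨P, Q, h1, h2, V, hV, hμ, h3, h4, h5⟩ := nondiscrete_step μ hG (N i) (hN1 i) F ε hε
    exact ⟨P, Q, h1, h2, _, ⟨V, hV, hμ, h3, h4, rfl⟩, h5⟩
  · rintro i j hij _ ⟨V, hV, hμ, h0, hVN, rfl⟩ _ ⟨V', hV', hμ', h0', hVN', rfl⟩ s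
    by_contra hcon
    push Not at hcon
    have key : ∀ (i : ℕ) (V : Set G) (hV : MeasurableSet V) (hμ : μ V ≠ ∞), V ⊆ N i →
        ⟪lam μ (t i) (zet μ hV hμ), lam μ s (zet μ hV hμ)⟫_ℂ ≠ 0 → s ∈ O i := by
      intro i V hV hμ hVN hne
      by_contra hs
      apply hne
      apply inner_lam_indicator
      intro x h1 h2
      apply hs
      have := hN2 i _ (hVN h1) _ (hVN h2)
      have e : t i * ((t i)⁻¹ * x * (s⁻¹ * x)⁻¹) = s := by group
      rwa [e] at this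
    exact Set.disjoint_left.1 (hO3 hij) (key i V hV hμ hVN hcon.1) (key j V' hV' hμ' hVN' hcon.2)

end Run7.h714.FA
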