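import Pool.Agent.Run7.h714.FA.Good

set_option autoImplicit false
set_option linter.unusedSectionVars false

/-!
# The recursive construction of one operator with prescribed matrix coefficients
-/

namespace Run7.h714.FA

open Filter Topology
open scoped InnerProductSpace ComplexConjugate

variable {G : Type*} [Group G] {H : Type*} [NormedAddCommGroup H] [InnerProductSpace ℂ H]
  {U : G → H →L[ℂ] H}

/-- a decomposition `P + Q = 1` into positive operators -/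
structure Split (U : G → H →L[ℂ] H) (P Q : H →L[ℂ] H) : Prop where
  goodP : Good U P
  goodQ : Good U Q
  symP : ∀ x y, ⟪P x, y⟫_ℂ = ⟪x, P y⟫_ℂ
  symQ : ∀ x y, ⟪Q x, y⟫_ℂ = ⟪x, Q y⟫_ℂ
  add : ∀ x, P x + Q x = x
  le : ∀ x, ‖P x‖ ^ 2 + ‖Q x‖ ^ 2 ≤ ‖x‖ ^ 2

theorem Split.symm {P Q : H →L[ℂ] H} (h : Split U P Q) : Split U Q P :=
  ⟨h.goodQ, h.goodP, h.symQ, h.symP, fun x => by rw [add_comm]; exact h.add x,
    fun x => by rw [add_comm]; exact h.le x⟩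

theorem Split.P_le {P Q : H →L[ℂ] H} (h : Split U P Q) (x : H) : ‖P x‖ ≤ ‖x‖ := by
  have := h.le x
  have h2 := norm_nonneg (P x)
  have h3 := norm_nonneg x
  nlinarith [sq_nonneg ‖Q x‖]

theorem Split.Q_le {P Q : H →L[ℂ] H} (h : Split U P Q) (x : H) : ‖Q x‖ ≤ ‖x‖ := h.symm.P_le x

section complete
variable [CompleteSpace H]

open ContinuousLinearMap in
/-- the decomposition belonging to a contraction `K` -/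
theorem split_of (hU : URep U) {K : H →L[ℂ] H} (hK : Good U K) (h1 : ‖K‖ ≤ 1) :
    Split U (adjoint K * K) (1 - adjoint K * K) := by
  have hc : ∀ x, ‖K x‖ ≤ ‖x‖ := fun x => by
    calc ‖K x‖ ≤ ‖K‖ * ‖x‖ := K.le_opNorm x
      _ ≤ 1 * ‖x‖ := mul_le_mul_of_nonneg_right h1 (norm_nonneg _)
      _ = ‖x‖ := one_mul _
  have hc' : ∀ x, ‖adjoint K x‖ ≤ ‖x‖ := fun x => by
    calc ‖adjoint K x‖ ≤ ‖adjoint K‖ * ‖x‖ := (adjoint K).le_opNorm x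
      _ ≤ 1 * ‖x‖ := mul_le_mul_of_nonneg_right (by rw [LinearIsometryEquiv.norm_map]; exact h1)
          (norm_nonneg _)
      _ = ‖x‖ := one_mul _
  have hg : Good U (adjoint K * K) := (hK.adj hU).mul hU hK
  have hs : ∀ x y, ⟪(adjoint K * K) x, y⟫_ℂ = ⟪x, (adjoint K * K) y⟫_ℂ := fun x y => by
    rw [mul_apply_eq_comp, mul_apply_eq_comp, adjoint_inner_left, adjoint_inner_right]
  refine ⟨hg, (good_one hU).sub hg, hs, ?_, ?_, ?_⟩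
  · intro x y
    simp only [sub_apply, one_apply_eq_self, inner_sub_left, inner_sub_right, hs x y]
  · intro x
    simp
  · intro x
    have e1 : ‖(1 - adjoint K * K) x‖ ^ 2
        = ‖x‖ ^ 2 - 2 * ‖K x‖ ^ 2 + ‖(adjoint K * K) x‖ ^ 2 := by
      rw [sub_apply, one_apply_eq_self, @norm_sub_sq ℂ]
      have : RCLike.re ⟪x, (adjoint K * K) x⟫_ℂ = ‖K x‖ ^ 2 := by
        rw [mul_apply_eq_comp, adjoint_inner_right, inner_self_eq_norm_sq]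
      rw [this]
    have e2 : ‖(adjoint K * K) x‖ ≤ ‖K x‖ := hc' (K x)
    have e3 : ‖(adjoint K * K) x‖ ^ 2 ≤ ‖K x‖ ^ 2 := pow_le_pow_left₀ (norm_nonneg _) e2 2
    rw [e1]
    linarith

theorem step (hU : URep U) {S : H →L[ℂ] H} (hS : Good U S) (hS1 : ‖S‖ ≤ 1) (t : G) (c : ℂ)
    (hc : ‖c‖ ≤ 1) {P Q : H →L[ℂ] H} (h : Split U P Q) :
    ∃ S' : H →L[ℂ] H, Good U S' ∧ ‖S'‖ ≤ 1 ∧
      (∀ (ξ η : H) (ε : ℝ), 0 ≤ ε → ‖ξ‖ ≤ 1 → ‖η‖ ≤ 1 → ‖Q ξ‖ ≤ ε → ‖Q (U t⁻¹ η)‖ ≤ ε →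
        ‖⟪η, S' ξ⟫_ℂ - ⟪η, S ξ⟫_ℂ‖ ≤ 2 * ε + ε ^ 2) ∧
      (∀ (ζ : H) (ε : ℝ), ‖ζ‖ = 1 → ‖P ζ‖ ≤ ε → ε ≤ 1 → ‖⟪U t ζ, S' ζ⟫_ℂ - c‖ ≤ 3 * ε) := by
  have hSc : ∀ x, ‖S x‖ ≤ ‖x‖ := fun x => by
    calc ‖S x‖ ≤ ‖S‖ * ‖x‖ := S.le_opNorm x
      _ ≤ 1 * ‖x‖ := mul_le_mul_of_nonneg_right hS1 (norm_nonneg _)
      _ = ‖x‖ := one_mul _
  set X : H →L[ℂ] H := P * (U t⁻¹ * (S * P)) + c • (Q * Q) with hX
  have hXi : ∀ x y, ⟪y, X x⟫_ℂ = ⟪P y, U t⁻¹ (S (P x))⟫_ℂ + c * ⟪Q y, Q x⟫_ℂ := by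
    intro x y
    have : X x = P (U t⁻¹ (S (P x))) + c • Q (Q x) := rfl
    rw [this, inner_add_right, inner_smul_right, h.symP, h.symQ]
  have hb : ∀ x y, ‖⟪P y, U t⁻¹ (S (P x))⟫_ℂ‖ ≤ ‖P y‖ * ‖P x‖ := by
    intro x y
    calc ‖⟪P y, U t⁻¹ (S (P x))⟫_ℂ‖ ≤ ‖P y‖ * ‖U t⁻¹ (S (P x))‖ := norm_inner_le_norm _ _
      _ ≤ ‖P y‖ * ‖P x‖ := by
        rw [hU.norm]
        exact mul_le_mul_of_nonneg_left (hSc _) (norm_nonneg _)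
  have hXn : ∀ x, ‖X x‖ ≤ ‖x‖ := by
    intro x
    have h1 : ‖X x‖ ^ 2 ≤ ‖P (X x)‖ * ‖P x‖ + ‖Q (X x)‖ * ‖Q x‖ := by
      have e1 : ((‖X x‖ ^ 2 : ℝ) : ℂ) = ⟪X x, X x⟫_ℂ := by
        rw [inner_self_eq_norm_sq_to_K]; norm_cast
      have e2 : ‖X x‖ ^ 2 = ‖⟪X x, X x⟫_ℂ‖ := by
        rw [← e1, Complex.norm_real, Real.norm_of_nonneg (by positivity)]
      rw [e2, hXi x (X x)]
      refine (norm_add_le _ _).trans (add_le_add (hb _ _) ?_)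
      rw [norm_mul]
      calc ‖c‖ * ‖⟪Q (X x), Q x⟫_ℂ‖ ≤ 1 * (‖Q (X x)‖ * ‖Q x‖) :=
            mul_le_mul hc (norm_inner_le_norm _ _) (norm_nonneg _) zero_le_one
        _ = ‖Q (X x)‖ * ‖Q x‖ := one_mul _
    have h2 := h.le (X x)
    have h3 := h.le x
    by_contra hcon
    push Not at hcon
    have h4 := norm_nonneg x
    have h5 : 2 * (‖P (X x)‖ * ‖P x‖ + ‖Q (X x)‖ * ‖Q x‖) ≤ ‖X x‖ ^ 2 + ‖x‖ ^ 2 := by
      nlinarith [sq_nonneg (‖P (X x)‖ - ‖P x‖), sq_nonneg (‖Q (X x)‖ - ‖Q x‖)]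
    nlinarith
  have hS'i : ∀ x y, ⟪y, (U t * X) x⟫_ℂ = ⟪U t⁻¹ y, X x⟫_ℂ := by
    intro x y
    rw [mul_apply_eq_comp, hU.inner_right]
  refine ⟨U t * X, ?_, ?_, ?_, ?_⟩
  · exact (good_U t).mul hU ((h.goodP.mul hU ((good_U t⁻¹).mul hU (hS.mul hU h.goodP))).add
      ((h.goodQ.mul hU h.goodQ).smul c))
  · refine ContinuousLinearMap.opNorm_le_bound _ zero_le_one fun x => ?_
    rw [one_mul, mul_apply_eq_comp, hU.norm]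
    exact hXn x
  · intro ξ η ε hε hξ hη hQξ hQη
    rw [hS'i, hXi]
    have e1 : ⟪η, S ξ⟫_ℂ = ⟪U t⁻¹ η, U t⁻¹ (S ξ)⟫_ℂ := (hU.inner _ _ _).symm
    rw [e1]
    set η' := U t⁻¹ η with hη'
    have hη1 : ‖η'‖ ≤ 1 := by rw [hη', hU.norm]; exact hη
    have e2 : ⟪P η', U t⁻¹ (S (P ξ))⟫_ℂ + c * ⟪Q η', Q ξ⟫_ℂ - ⟪η', U t⁻¹ (S ξ)⟫_ℂ
        = -⟪Q η', U t⁻¹ (S (P ξ))⟫_ℂ - ⟪η', U t⁻¹ (S (Q ξ))⟫_ℂ + c * ⟪Q η', Q ξ⟫_ℂ := by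
      have a1 := h.add η'
      have a2 := h.add ξ
      have a3 : ⟪η', U t⁻¹ (S ξ)⟫_ℂ = ⟪η', U t⁻¹ (S (P ξ))⟫_ℂ + ⟪η', U t⁻¹ (S (Q ξ))⟫_ℂ := by
        conv_lhs => rw [← a2]
        rw [map_add, map_add, inner_add_right]
      have a4 : ⟪η', U t⁻¹ (S (P ξ))⟫_ℂ
          = ⟪P η', U t⁻¹ (S (P ξ))⟫_ℂ + ⟪Q η', U t⁻¹ (S (P ξ))⟫_ℂ := by
        conv_lhs => rw [← a1]
        rw [inner_add_left]
      rw [a3, a4]
      ring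
    rw [e2]
    have b1 : ‖⟪Q η', U t⁻¹ (S (P ξ))⟫_ℂ‖ ≤ ε := by
      calc ‖⟪Q η', U t⁻¹ (S (P ξ))⟫_ℂ‖ ≤ ‖Q η'‖ * ‖U t⁻¹ (S (P ξ))‖ := norm_inner_le_norm _ _
        _ ≤ ε * 1 := by
          refine mul_le_mul hQη ?_ (norm_nonneg _) hε
          rw [hU.norm]
          exact (hSc _).trans ((h.P_le _).trans hξ)
        _ = ε := mul_one _
    have b2 : ‖⟪η', U t⁻¹ (S (Q ξ))⟫_ℂ‖ ≤ ε := by
      calc ‖⟪η', U t⁻¹ (S (Q ξ))⟫_ℂ‖ ≤ ‖η'‖ * ‖U t⁻¹ (S (Q ξ))‖ := norm_inner_le_norm _ _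
        _ ≤ 1 * ε := by
          refine mul_le_mul hη1 ?_ (norm_nonneg _) zero_le_one
          rw [hU.norm]
          exact (hSc _).trans hQξ
        _ = ε := one_mul _
    have b3 : ‖c * ⟪Q η', Q ξ⟫_ℂ‖ ≤ ε ^ 2 := by
      rw [norm_mul]
      calc ‖c‖ * ‖⟪Q η', Q ξ⟫_ℂ‖ ≤ 1 * (‖Q η'‖ * ‖Q ξ‖) :=
            mul_le_mul hc (norm_inner_le_norm _ _) (norm_nonneg _) zero_le_one
        _ ≤ 1 * (ε * ε) := by
          refine mul_le_mul_of_nonneg_left ?_ zero_le_one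
          exact mul_le_mul hQη hQξ (norm_nonneg _) hε
        _ = ε ^ 2 := by ring
    calc ‖-⟪Q η', U t⁻¹ (S (P ξ))⟫_ℂ - ⟪η', U t⁻¹ (S (Q ξ))⟫_ℂ + c * ⟪Q η', Q ξ⟫_ℂ‖
        ≤ ‖-⟪Q η', U t⁻¹ (S (P ξ))⟫_ℂ - ⟪η', U t⁻¹ (S (Q ξ))⟫_ℂ‖ + ‖c * ⟪Q η', Q ξ⟫_ℂ‖ :=
          norm_add_le _ _
      _ ≤ (‖-⟪Q η', U t⁻¹ (S (P ξ))⟫_ℂ‖ + ‖⟪η', U t⁻¹ (S (Q ξ))⟫_ℂ‖) + ‖c * ⟪Q η', Q ξ⟫_ℂ‖ := by
          gcongr; exact norm_sub_le _ _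
      _ ≤ (ε + ε) + ε ^ 2 := by rw [norm_neg]; gcongr
      _ = 2 * ε + ε ^ 2 := by ring
  · intro ζ ε hζ hPζ hε1
    have hε : 0 ≤ ε := (norm_nonneg _).trans hPζ
    rw [hS'i, hXi, ← hU.mul, inv_mul_cancel, hU.one]
    have hQ : Q ζ = ζ - P ζ := by rw [eq_sub_iff_add_eq, add_comm]; exact h.add ζ
    have b1 : ‖⟪P ζ, U t⁻¹ (S (P ζ))⟫_ℂ‖ ≤ ε * ε := by
      refine (hb ζ ζ).trans ?_
      exact mul_le_mul hPζ hPζ (norm_nonneg _) hε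
    have hq1 : ‖Q ζ‖ ≤ 1 := by rw [← hζ]; exact h.Q_le ζ
    have hq2 : 1 - ε ≤ ‖Q ζ‖ := by
      have := norm_sub_norm_le ζ (P ζ)
      rw [hζ, ← hQ] at this
      linarith
    have hq3 : 0 ≤ ‖Q ζ‖ := norm_nonneg _
    have b2 : ‖c * ⟪Q ζ, Q ζ⟫_ℂ - c‖ ≤ 1 - ‖Q ζ‖ ^ 2 := by
      have : c * ⟪Q ζ, Q ζ⟫_ℂ - c = -(c * ((1 - ‖Q ζ‖ ^ 2 : ℝ) : ℂ)) := by
        rw [inner_self_eq_norm_sq_to_K]; push_cast; ring_nf; norm_cast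
      rw [this, norm_neg, norm_mul, Complex.norm_real, Real.norm_of_nonneg (by nlinarith)]
      have h0 : 0 ≤ 1 - ‖Q ζ‖ ^ 2 := by nlinarith
      nlinarith
    have b3 : 1 - ‖Q ζ‖ ^ 2 ≤ 2 * ε - ε ^ 2 := by nlinarith
    calc ‖⟪P ζ, U t⁻¹ (S (P ζ))⟫_ℂ + c * ⟪Q ζ, Q ζ⟫_ℂ - c‖
        = ‖⟪P ζ, U t⁻¹ (S (P ζ))⟫_ℂ + (c * ⟪Q ζ, Q ζ⟫_ℂ - c)‖ := by rw [add_sub_assoc]
      _ ≤ ‖⟪P ζ, U t⁻¹ (S (P ζ))⟫_ℂ‖ + ‖c * ⟪Q ζ, Q ζ⟫_ℂ - c‖ := norm_add_le _ _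
      _ ≤ ε * ε + (2 * ε - ε ^ 2) := add_le_add b1 (b2.trans b3)
      _ ≤ 3 * ε := by nlinarith

/-- the invariant of the recursion -/
def Inv (U : G → H →L[ℂ] H) (t : ℕ → G) (c : ℕ → ℂ) (Adm : ℕ → Set H) (i : ℕ) (z : ℕ → H)
    (S : H →L[ℂ] H) : Prop :=
  Good U S ∧ ‖S‖ ≤ 1 ∧ (∀ j < i, z j ∈ Adm j) ∧
    ∀ j < i, ‖⟪U (t j) (z j), S (z j)⟫_ℂ - c j‖ ≤ 1 / 4 * ((1 / 2) ^ j - (1 / 2) ^ i)

/-- **The recursion.** -/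
theorem recursion (hU : URep U) (t : ℕ → G) (c : ℕ → ℂ) (hc : ∀ i, ‖c i‖ ≤ 1)
    (Adm : ℕ → Set H) (hA : ∀ i, ∀ z ∈ Adm i, ‖z‖ = 1)
    (hstep : ∀ (i : ℕ) (F : Finset H) (ε : ℝ), 0 < ε → ∃ P Q : H →L[ℂ] H, Split U P Q ∧
      (∀ ξ ∈ F, ‖Q ξ‖ ≤ ε) ∧ ∃ ζ ∈ Adm i, ‖P ζ‖ ≤ ε) :
    ∃ (ζ : ℕ → H) (S : ℕ → H →L[ℂ] H), (∀ i, ζ i ∈ Adm i) ∧ (∀ i, Good U (S i)) ∧
      (∀ i, ‖S i‖ ≤ 1) ∧ ∀ i, ∀ j < i, ‖⟪U (t j) (ζ j), S i (ζ j)⟫_ℂ - c j‖ ≤ 1 / 4 := by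
  classical
  have hs : ∀ (i : ℕ) (p : (ℕ → H) × (H →L[ℂ] H)), Inv U t c Adm i p.1 p.2 →
      ∃ q : (ℕ → H) × (H →L[ℂ] H), Inv U t c Adm (i + 1) q.1 q.2 ∧ ∀ j < i, q.1 j = p.1 j := by
    rintro i ⟨z, S⟩ ⟨h1, h2, h3, h4⟩
    simp only at h1 h2 h3 h4
    set ε : ℝ := 1 / 24 * (1 / 2) ^ i with hε
    have hεp : 0 < ε := by positivity
    have hε1 : ε ≤ 1 := by
      have : ((1 : ℝ) / 2) ^ i ≤ 1 := pow_le_one₀ (by norm_num) (by norm_num)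
      rw [hε]; linarith
    obtain ⟨P, Q, hPQ, hF, ζ, hζ, hPζ⟩ := hstep i
      ((Finset.range i).image z ∪ (Finset.range i).image fun j => U (t i)⁻¹ (U (t j) (z j))) ε hεp
    obtain ⟨S', g1, g2, g3, g4⟩ := step hU h1 h2 (t i) (c i) (hc i) hPQ
    refine ⟨(Function.update z i ζ, S'), ⟨g1, g2, ?_, ?_⟩, ?_⟩
    · intro j hj
      rcases Nat.lt_succ_iff_lt_or_eq.1 hj with h | h
      · simp only [Function.update_of_ne h.ne]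
        exact h3 j h
      · subst h
        simpa using hζ
    · intro j hj
      simp only
      rcases Nat.lt_succ_iff_lt_or_eq.1 hj with h | h
      · rw [Function.update_of_ne h.ne]
        have hz1 : ‖z j‖ = 1 := hA j _ (h3 j h)
        have k1 := g3 (z j) (U (t j) (z j)) ε hεp.le hz1.le (by rw [hU.norm, hz1])
          (hF _ (by
            apply Finset.mem_union_left
            exact Finset.mem_image_of_mem _ (Finset.mem_range.2 h)))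
          (hF _ (by
            apply Finset.mem_union_right
            exact Finset.mem_image.2 ⟨j, Finset.mem_range.2 h, rfl⟩))
        have k2 := h4 j h
        have k3 : ‖⟪U (t j) (z j), S' (z j)⟫_ℂ - c j‖ ≤
            (2 * ε + ε ^ 2) + 1 / 4 * ((1 / 2) ^ j - (1 / 2) ^ i) := by
          calc ‖⟪U (t j) (z j), S' (z j)⟫_ℂ - c j‖
              = ‖(⟪U (t j) (z j), S' (z j)⟫_ℂ - ⟪U (t j) (z j), S (z j)⟫_ℂ)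
                + (⟪U (t j) (z j), S (z j)⟫_ℂ - c j)‖ := by ring_nf
            _ ≤ _ := (norm_add_le _ _).trans (add_le_add k1 k2)
        refine k3.trans ?_
        have k4 : ε ^ 2 ≤ ε := by nlinarith
        rw [pow_succ ((1 : ℝ) / 2) i]
        rw [hε] at k4 ⊢
        linarith
      · subst h
        rw [Function.update_self]
        have k1 := g4 ζ ε (hA j ζ hζ) hPζ hε1
        refine k1.trans ?_
        rw [pow_succ ((1 : ℝ) / 2) j, hε]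
        linarith
    · intro j hj
      simp only [Function.update_of_ne hj.ne]
  choose! nxt hnxt1 hnxt2 using hs
  let st : (i : ℕ) → {p : (ℕ → H) × (H →L[ℂ] H) // Inv U t c Adm i p.1 p.2} := fun i =>
    Nat.rec (motive := fun i => {p : (ℕ → H) × (H →L[ℂ] H) // Inv U t c Adm i p.1 p.2})
      ⟨(fun _ => 0, 0), ⟨good_zero, by simp, by simp, by simp⟩⟩
      (fun i p => ⟨nxt i p.1, hnxt1 i p.1 p.2⟩) i
  have hst : ∀ i, (st (i + 1)).1 = nxt i (st i).1 := fun i => rfl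
  have hagree : ∀ j i, j < i → (st i).1.1 j = (st (j + 1)).1.1 j := by
    intro j i hji
    induction i with
    | zero => omega
    | succ i ih =>
      rcases Nat.lt_succ_iff_lt_or_eq.1 hji with h | h
      · rw [hst, hnxt2 i (st i).1 (st i).2 j h, ih h]
      · subst h; rfl
  refine ⟨fun j => (st (j + 1)).1.1 j, fun i => (st i).1.2, ?_, fun i => (st i).2.1,
    fun i => (st i).2.2.1, ?_⟩
  · intro i
    exact (st (i + 1)).2.2.2.1 i (Nat.lt_succ_self i)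
  · intro i j hj
    have h := (st i).2.2.2.2 j hj
    rw [hagree j i hj] at h
    refine h.trans ?_
    have h1 : ((1 : ℝ) / 2) ^ j ≤ 1 := pow_le_one₀ (by norm_num) (by norm_num)
    have h2 : 0 ≤ ((1 : ℝ) / 2) ^ i := by positivity
    linarith

end complete

end Run7.h714.FA
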